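import Pool.Agent.Helper35_XQ.Stmt

/-!
Squad XQ (MP_5b0138_an), module GI_VBD: bounds of the mass (helper4).
-/

set_option autoImplicit false

namespace Pool.Agent.XQ.H4V

open MeasureTheory Complex Filter Topology Pool.Agent.H62T Pool.Agent.H60K Pool.Agent.XQ.GI
open scoped ENNReal NNReal

lemma norm_uI (α : ℝ) (s : Fin 3) : ‖uI α s‖ = 1 := by
  have h : ‖uI α s‖ ^ 2 = 1 := by
    rw [← Complex.normSq_eq_norm_sq, Complex.normSq_apply]
    unfold uI
    have := Real.sin_sq_add_cos_sq α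
    split_ifs <;> simp only [] <;> linarith only [this]
  have h0 := norm_nonneg (uI α s)
  nlinarith

lemma integral_le_toReal (f : ℂ → ℝ) (_h : (∫⁻ x, ENNReal.ofReal (f x)) ≠ ⊤) :
    ∫ x, f x ≤ (∫⁻ x, ENNReal.ofReal (f x)).toReal := by
  by_cases hf : Integrable f
  · rw [integral_eq_lintegral_pos_part_sub_lintegral_neg_part hf]
    have : 0 ≤ (∫⁻ x, ENNReal.ofReal (-f x)).toReal := ENNReal.toReal_nonneg
    linarith
  · rw [integral_undef hf]
    exact ENNReal.toReal_nonneg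

lemma exp_inv_le {x : ℝ} (hx : 0 < x) : Real.exp (-x) ≤ 1 / x := by
  rw [Real.exp_neg, ← one_div]
  apply one_div_le_one_div_of_le hx
  have := Real.add_one_le_exp x
  linarith

/-- `exp (- δ / 4 t)` is small -/
lemma exp_small {δ C η : ℝ} (hδ : 0 < δ) (hC : 0 ≤ C) (hη : 0 < η) :
    ∃ t0 : ℝ, 0 < t0 ∧ ∀ t : ℝ, 0 < t → t < t0 → C * Real.exp (-(δ / (4 * t))) ≤ η := by
  refine ⟨η * δ / (4 * (C + 1)), by positivity, fun t ht ht0 => ?_⟩
  have h1 : Real.exp (-(δ / (4 * t))) ≤ 1 / (δ / (4 * t)) := exp_inv_le (by positivity)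
  have h2 : 1 / (δ / (4 * t)) = 4 * t / δ := by field_simp
  rw [h2] at h1
  have h3 : t * (4 * (C + 1)) < η * δ := by
    rw [lt_div_iff₀ (by positivity)] at ht0
    exact ht0
  calc C * Real.exp (-(δ / (4 * t))) ≤ C * (4 * t / δ) := mul_le_mul_of_nonneg_left h1 hC
    _ = C * t * 4 / δ := by ring
    _ ≤ η := by
      rw [div_le_iff₀ hδ]
      linarith only [ht, h3]

/-- absorb a factor `1 / t` -/
lemma absorb {L L' t : ℝ} (hL' : 0 ≤ L') (hL : L' < L) (ht : 0 < t) :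
    1 / t * Real.exp (-(L ^ 2 / (4 * t)))
      ≤ 4 / (L ^ 2 - L' ^ 2) * Real.exp (-(L' ^ 2 / (4 * t))) := by
  have hd : 0 < L ^ 2 - L' ^ 2 := by nlinarith only [hL', hL]
  have h1 : Real.exp (-(L ^ 2 / (4 * t)))
      = Real.exp (-((L ^ 2 - L' ^ 2) / (4 * t))) * Real.exp (-(L' ^ 2 / (4 * t))) := by
    rw [← Real.exp_add]; congr 1; ring
  have h2 : Real.exp (-((L ^ 2 - L' ^ 2) / (4 * t))) ≤ 1 / ((L ^ 2 - L' ^ 2) / (4 * t)) :=
    exp_inv_le (by positivity)
  have h3 : 1 / ((L ^ 2 - L' ^ 2) / (4 * t)) = 4 * t / (L ^ 2 - L' ^ 2) := by field_simp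
  rw [h3] at h2
  rw [h1, ← mul_assoc]
  apply mul_le_mul_of_nonneg_right _ (Real.exp_pos _).le
  calc 1 / t * Real.exp (-((L ^ 2 - L' ^ 2) / (4 * t)))
      ≤ 1 / t * (4 * t / (L ^ 2 - L' ^ 2)) := mul_le_mul_of_nonneg_left h2 (by positivity)
    _ = 4 / (L ^ 2 - L' ^ 2) := by field_simp

lemma exp_mono {L L' t : ℝ} (hL' : 0 ≤ L') (hL : L' ≤ L) (ht : 0 < t) :
    Real.exp (-(L ^ 2 / (4 * t))) ≤ Real.exp (-(L' ^ 2 / (4 * t))) := by
  apply Real.exp_le_exp.2
  apply neg_le_neg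
  apply div_le_div_of_nonneg_right _ (by positivity)
  nlinarith only [hL', hL]

/-- the core estimate -/
lemma core (hV : VlmStatement) (hC : ChnStatement) (hB : BloStatement) (hT : TuiStatement)
    (hBad : BadStatement) (hCr : CruStatement) (hFl : FlxStatement)
    (α b e1 e2 : ℝ) (h1 : Real.pi / 3 ≤ α) (h2 : α < Real.pi / 2) (hb : 0 < b)
    (he1 : 0 < e1) (he1' : 2 * e1 < Lz α b) (he2 : 0 < e2) (he2' : e2 < La α b) :
    ∃ C : ℝ, 0 ≤ C ∧ ∀ t : ℝ, 0 < t → t < 1 →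
      |2 * (LM (uI α) (hI α b) Lp t).toReal - lo α b * gg t (lo α b)|
        ≤ C * Real.exp (-((Lq α b - e2) ^ 2 / (4 * t)))
          + (C / √t * Real.exp (-(La α b ^ 2 / (4 * t)))
            + C / t * Real.exp (-((Lz α b - 2 * e1) ^ 2 / (4 * t)))) ∧
      (LM (uI α) (hI α b) (fun f => Lp f ∧ Lm f) t).toReal
        ≤ C * Real.exp (-((La α b - e2) ^ 2 / (4 * t))) := by
  have hα : 0 < α := lt_of_lt_of_le (by positivity) h1
  obtain ⟨nF, hnF⟩ := hFl α b e1 h1 h2 hb he1 he1'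
  obtain ⟨nB, hnB⟩ := hBad α b e2 h1 h2 hb he2 he2'
  obtain ⟨n, hn⟩ : ∃ n : ℕ, n = 2 ^ (nF + nB + 1) := ⟨_, rfl⟩
  have hlt : nF + nB + 1 < n := by rw [hn]; exact Nat.lt_two_pow_self
  have hnz : NeZero n := ⟨by omega⟩
  have hn2 : 2 ≤ n := by
    rw [hn, pow_succ]
    have : 1 ≤ 2 ^ (nF + nB) := Nat.one_le_two_pow
    omega
  obtain ⟨CF, hCF, hF⟩ := hnF n (by omega)
  obtain ⟨CB, p, hCB, hBd⟩ := hnB n (by omega)
  obtain ⟨CR, p', hCR, hR⟩ := hCr α b hα h2 hb
  refine ⟨2 * CF + 2 * (n + 1) * (CB * 2 ^ p) + CB * 2 ^ p, by positivity, fun t ht ht1 => ?_⟩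
  have hpt : CB * (1 + t) ^ p ≤ CB * 2 ^ p := by
    apply mul_le_mul_of_nonneg_left _ hCB
    apply pow_le_pow_left₀ (by linarith)
    linarith
  obtain ⟨b1, b2, b3⟩ := hBd t ht
  have hkfin : (∫⁻ x, ENNReal.ofReal (kME (uI α) (hI α b) Finset.univ ∅ t x x)) ≠ ⊤ :=
    ne_top_of_le_ne_top ENNReal.ofReal_ne_top (hR t ht)
  obtain ⟨v1, v2, v3⟩ := hV α b t hα h2 hb ht hkfin
  have c1 := hC (uI α) (hI α b) (norm_uI α) (nF + nB + 1) n hn Lp t ht
  have c2 := hC (uI α) (hI α b) (norm_uI α) (nF + nB + 1) n hn (fun f => Lp f ∧ Lm f) t ht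
  have m1 : MO (n := n) (uI α) (hI α b) (t / n) (fun _ A => Lp (cp A)) ≠ ⊤ := by
    rw [← c1]; exact v1
  have d1 := hB (uI α) (hI α b) (norm_uI α) n t hn2 ht m1
  have d2 := hT (uI α) (hI α b) (norm_uI α) n t hn2 ht m1
  have d3 := hF t ht ht1
  rw [d2, ← c1] at d1
  have X1 := Real.exp_pos (-((Lq α b - e2) ^ 2 / (4 * t)))
  have X2 := Real.exp_pos (-(La α b ^ 2 / (4 * t)))
  have X3 := Real.exp_pos (-((Lz α b - 2 * e1) ^ 2 / (4 * t)))
  have X4 := Real.exp_pos (-((La α b - e2) ^ 2 / (4 * t)))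
  set E1 := Real.exp (-((Lq α b - e2) ^ 2 / (4 * t)))
  set E2 := Real.exp (-(La α b ^ 2 / (4 * t)))
  set E3 := Real.exp (-((Lz α b - 2 * e1) ^ 2 / (4 * t)))
  set E4 := Real.exp (-((La α b - e2) ^ 2 / (4 * t)))
  have hst : 0 < √t := Real.sqrt_pos.2 ht
  have hbad : (MO (n := n) (uI α) (hI α b) (t / n) (fun x A => Lp (cp A) ∧
        ¬ (Ad x (fun j => vs (A j)) ∧ Nl (fun j => vs (A j))))).toReal
      ≤ CB * 2 ^ p * E1 := by
    refine (ENNReal.toReal_le_of_le_ofReal (by positivity) b2).trans ?_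
    exact mul_le_mul_of_nonneg_right hpt X1.le
  have hboth : (LM (uI α) (hI α b) (fun f => Lp f ∧ Lm f) t).toReal ≤ CB * 2 ^ p * E4 := by
    rw [c2]
    refine (ENNReal.toReal_le_of_le_ofReal (by positivity) b3).trans ?_
    exact mul_le_mul_of_nonneg_right hpt X4.le
  constructor
  · have e5 : |(LM (uI α) (hI α b) Lp t).toReal - 1 / 2 * lo α b * gg t (lo α b)|
        ≤ (n + 1) * (CB * 2 ^ p * E1) + (CF / √t * E2 + CF / t * E3) := by
      have h3 := mul_le_mul_of_nonneg_left hbad (by positivity : (0 : ℝ) ≤ (n : ℝ) + 1)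
      have h4 := abs_sub_le (LM (uI α) (hI α b) Lp t).toReal (n * TU n (uI α) (hI α b) t)
        (1 / 2 * lo α b * gg t (lo α b))
      linarith only [d1, d3, h3, h4]
    have e6 : 2 * (LM (uI α) (hI α b) Lp t).toReal - lo α b * gg t (lo α b)
        = 2 * ((LM (uI α) (hI α b) Lp t).toReal - 1 / 2 * lo α b * gg t (lo α b)) := by ring
    rw [e6, abs_mul, abs_of_pos (by norm_num : (0 : ℝ) < 2)]
    have f1 : 0 ≤ CB * 2 ^ p * E1 := by positivity
    have f2 : 0 ≤ CF * E1 := by positivity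
    have f3 : 0 ≤ (n : ℝ) * (CB * 2 ^ p) / √t * E2 := by positivity
    have f4 : 0 ≤ (CB * 2 ^ p) / √t * E2 := by positivity
    have f5 : 0 ≤ (n : ℝ) * (CB * 2 ^ p) / t * E3 := by positivity
    have f6 : 0 ≤ (CB * 2 ^ p) / t * E3 := by positivity
    have g1 : (2 * CF + 2 * (n + 1) * (CB * 2 ^ p) + CB * 2 ^ p) * E1
        = 2 * (CF * E1) + 2 * ((n + 1) * (CB * 2 ^ p * E1)) + CB * 2 ^ p * E1 := by ring
    have g2 : (2 * CF + 2 * (n + 1) * (CB * 2 ^ p) + CB * 2 ^ p) / √t * E2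
        = 2 * (CF / √t * E2) + 2 * ((n : ℝ) * (CB * 2 ^ p) / √t * E2)
          + 3 * ((CB * 2 ^ p) / √t * E2) := by ring
    have g3 : (2 * CF + 2 * (n + 1) * (CB * 2 ^ p) + CB * 2 ^ p) / t * E3
        = 2 * (CF / t * E3) + 2 * ((n : ℝ) * (CB * 2 ^ p) / t * E3)
          + 3 * ((CB * 2 ^ p) / t * E3) := by ring
    rw [g1, g2, g3]
    linarith only [e5, f1, f2, f3, f4, f5, f6]
  · refine hboth.trans ?_
    apply mul_le_mul_of_nonneg_right _ X4.le
    have : 0 ≤ 2 * CF + 2 * (n + 1) * (CB * 2 ^ p) := by positivity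
    linarith

lemma both_le (hC : ChnStatement) (α b t : ℝ) (ht : 0 < t) :
    LM (uI α) (hI α b) (fun f => Lp f ∧ Lm f) t ≤ LM (uI α) (hI α b) Lp t := by
  have hnz : NeZero (1 : ℕ) := ⟨one_ne_zero⟩
  have c1 := hC (uI α) (hI α b) (norm_uI α) 0 1 (by norm_num) Lp t ht
  have c2 := hC (uI α) (hI α b) (norm_uI α) 0 1 (by norm_num) (fun f => Lp f ∧ Lm f) t ht
  rw [c1, c2]
  unfold MO
  refine Finset.sum_le_sum fun A _ => lintegral_mono fun x => ?_
  by_cases h : Lp (cp A) ∧ Lm (cp A)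
  · simp only [if_pos h, if_pos h.1, le_refl]
  · simp only [if_neg h, zero_le]

theorem vbd (hV : VlmStatement) (hC : ChnStatement) (hB : BloStatement) (hT : TuiStatement)
    (hBad : BadStatement) (hCr : CruStatement) (hFl : FlxStatement) (hBn : BndStatement)
    (hL : LenStatement) : VbdStatement := by
  intro α b h1 h2 hb
  have hα : 0 < α := lt_of_lt_of_le (by positivity) h1
  obtain ⟨l1, l2, l3, l4, l5, l6⟩ := hL α b h1 h2 hb
  have hvm : ∀ t : ℝ, 0 < t → LM (uI α) (hI α b) Lp t ≠ ⊤ ∧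
      LM (uI α) (hI α b) (fun f => Lp f ∧ Lm f) t ≠ ⊤ ∧
      VM (uI α) (hI α b) Finset.univ ∅ t = 2 * (LM (uI α) (hI α b) Lp t).toReal
        - (LM (uI α) (hI α b) (fun f => Lp f ∧ Lm f) t).toReal := by
    intro t ht
    obtain ⟨CR, p', hCR, hR⟩ := hCr α b hα h2 hb
    exact hV α b t hα h2 hb ht (ne_top_of_le_ne_top ENNReal.ofReal_ne_top (hR t ht))
  refine ⟨?_, ?_, ?_⟩
  · obtain ⟨CR, p', hCR, hR⟩ := hCr α b hα h2 hb
    refine ⟨CR, p', hCR, fun t ht => ⟨?_, ?_⟩⟩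
    · obtain ⟨v1, v2, v3⟩ := hvm t ht
      have h3 := ENNReal.toReal_mono v1 (both_le hC α b t ht)
      have h4 : 0 ≤ (LM (uI α) (hI α b) Lp t).toReal := ENNReal.toReal_nonneg
      rw [v3]
      linarith
    · have hfin : (∫⁻ x, ENNReal.ofReal (kME (uI α) (hI α b) Finset.univ ∅ t x x)) ≠ ⊤ :=
        ne_top_of_le_ne_top ENNReal.ofReal_ne_top (hR t ht)
      refine (integral_le_toReal _ hfin).trans ?_
      exact ENNReal.toReal_le_of_le_ofReal (by positivity) (hR t ht)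
  · intro hα3
    have hlt := l6 hα3
    obtain ⟨cB, hcB, hBd⟩ := hBn α b h1 h2 hb
    -- lengths
    set L1 := (Lz α b + La α b) / 2 with hL1
    have hL1a : La α b < L1 := by rw [hL1]; linarith only [hlt]
    obtain ⟨C, hC0, hcore⟩ := core hV hC hB hT hBad hCr hFl α b ((Lz α b - La α b) / 4)
      (min ((Lz α b - La α b) / 2) (La α b / 2)) h1 h2 hb (by linarith) (by linarith)
      (lt_min (by linarith) (by linarith))
      (lt_of_le_of_lt (min_le_right _ _) (by linarith))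
    have hz : Lz α b - 2 * ((Lz α b - La α b) / 4) = L1 := by rw [hL1]; ring
    rw [hz] at hcore
    have hq : L1 ≤ Lq α b - min ((Lz α b - La α b) / 2) (La α b / 2) := by
      have := min_le_left ((Lz α b - La α b) / 2) (La α b / 2)
      rw [hL1]; linarith only [l4, this]
    have hδ : 0 < L1 ^ 2 - La α b ^ 2 := by nlinarith only [l1, hL1, hlt]
    obtain ⟨t1, ht1, hs1⟩ := exp_small (δ := L1 ^ 2 - La α b ^ 2) (C := C) (η := cB / 6) hδ hC0
      (by positivity)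
    refine ⟨cB / 2, min (min t1 1) ((cB / (6 * (C + 1))) ^ 2), by positivity,
      lt_min (lt_min ht1 one_pos) (by positivity), fun t ht ht0 => ?_⟩
    have ht1' : t < t1 := lt_of_lt_of_le ht0 ((min_le_left _ _).trans (min_le_left _ _))
    have htone : t < 1 := lt_of_lt_of_le ht0 ((min_le_left _ _).trans (min_le_right _ _))
    have htc : t < (cB / (6 * (C + 1))) ^ 2 := lt_of_lt_of_le ht0 (min_le_right _ _)
    obtain ⟨v1, v2, v3⟩ := hvm t ht
    obtain ⟨k1, k2⟩ := hcore t ht htone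
    have hst : 0 < √t := Real.sqrt_pos.2 ht
    have hst2 : √t < cB / (6 * (C + 1)) := by
      rw [Real.sqrt_lt' (by positivity)]; exact htc
    have hst3 : √t * √t = t := Real.mul_self_sqrt ht.le
    have hX := Real.exp_pos (-(La α b ^ 2 / (4 * t)))
    have hexp1 : Real.exp (-(L1 ^ 2 / (4 * t)))
        = Real.exp (-((L1 ^ 2 - La α b ^ 2) / (4 * t))) * Real.exp (-(La α b ^ 2 / (4 * t))) := by
      rw [← Real.exp_add]; congr 1; ring
    have hs := hs1 t ht ht1'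
    -- the three error terms
    have r1 : C * Real.exp (-(L1 ^ 2 / (4 * t)))
        ≤ cB / 6 / t * Real.exp (-(La α b ^ 2 / (4 * t))) := by
      rw [hexp1, ← mul_assoc]
      apply mul_le_mul_of_nonneg_right _ hX.le
      refine hs.trans ?_
      rw [le_div_iff₀ ht]
      nlinarith only [hcB, htone]
    have r1' : C * Real.exp (-((Lq α b - min ((Lz α b - La α b) / 2) (La α b / 2)) ^ 2 / (4 * t)))
        ≤ cB / 6 / t * Real.exp (-(La α b ^ 2 / (4 * t))) := by
      refine le_trans ?_ r1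
      exact mul_le_mul_of_nonneg_left (exp_mono (by linarith only [l1, hL1a]) hq ht) hC0
    have r2 : C / √t * Real.exp (-(La α b ^ 2 / (4 * t)))
        ≤ cB / 6 / t * Real.exp (-(La α b ^ 2 / (4 * t))) := by
      apply mul_le_mul_of_nonneg_right _ hX.le
      rw [div_le_div_iff₀ hst ht]
      have h5 : √t * (6 * (C + 1)) < cB := by
        rw [lt_div_iff₀ (by positivity)] at hst2; exact hst2
      have h6 : C * √t ≤ cB / 6 := by linarith only [hst, h5]
      calc C * t = C * √t * √t := by rw [mul_assoc, hst3]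
        _ ≤ cB / 6 * √t := mul_le_mul_of_nonneg_right h6 hst.le
    have r3 : C / t * Real.exp (-(L1 ^ 2 / (4 * t)))
        ≤ cB / 6 / t * Real.exp (-(La α b ^ 2 / (4 * t))) := by
      rw [hexp1, ← mul_assoc]
      apply mul_le_mul_of_nonneg_right _ hX.le
      have : C / t * Real.exp (-((L1 ^ 2 - La α b ^ 2) / (4 * t)))
          = C * Real.exp (-((L1 ^ 2 - La α b ^ 2) / (4 * t))) / t := by ring
      rw [this]
      exact div_le_div_of_nonneg_right hs ht.le
    have hband : cB / t * Real.exp (-(La α b ^ 2 / (4 * t)))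
        ≤ (LM (uI α) (hI α b) (fun f => Lp f ∧ Lm f) t).toReal := by
      have := ENNReal.toReal_mono v2 (hBd t ht htone)
      rwa [ENNReal.toReal_ofReal (by positivity)] at this
    have k1' := (abs_le.1 k1).2
    rw [v3]
    have hsplit : cB / t * Real.exp (-(La α b ^ 2 / (4 * t)))
        = 6 * (cB / 6 / t * Real.exp (-(La α b ^ 2 / (4 * t)))) := by ring
    have hsplit2 : cB / 2 / t * Real.exp (-(La α b ^ 2 / (4 * t)))
        = 3 * (cB / 6 / t * Real.exp (-(La α b ^ 2 / (4 * t)))) := by ring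
    rw [hsplit] at hband
    rw [hsplit2]
    linarith only [r1', r2, r3, hband, k1']
  · intro e he heL
    obtain ⟨C, hC0, hcore⟩ := core hV hC hB hT hBad hCr hFl α b (e / 4) (e / 2) h1 h2 hb
      (by linarith) (by linarith) (by linarith) (by linarith)
    set L' := La α b - e with hL'
    have hL'0 : 0 < L' := by rw [hL']; linarith
    have hd1 : 0 < La α b ^ 2 - L' ^ 2 := by
      have : L' < La α b := by rw [hL']; linarith
      nlinarith only [he, heL]
    have hz : L' < Lz α b - 2 * (e / 4) := by rw [hL']; linarith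
    have hd2 : 0 < (Lz α b - 2 * (e / 4)) ^ 2 - L' ^ 2 := by nlinarith only [l3, heL, he]
    refine ⟨C + C * (4 / (La α b ^ 2 - L' ^ 2)) + C * (4 / ((Lz α b - 2 * (e / 4)) ^ 2 - L' ^ 2))
      + C, 1, one_pos, fun t ht htone => ?_⟩
    obtain ⟨v1, v2, v3⟩ := hvm t ht
    obtain ⟨k1, k2⟩ := hcore t ht htone
    have hst : 0 < √t := Real.sqrt_pos.2 ht
    have hst1 : √t ≤ 1 := by rw [Real.sqrt_le_one]; exact htone.le
    have hst3 : √t * √t = t := Real.mul_self_sqrt ht.le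
    have r1 : C * Real.exp (-((Lq α b - e / 2) ^ 2 / (4 * t)))
        ≤ C * Real.exp (-(L' ^ 2 / (4 * t))) :=
      mul_le_mul_of_nonneg_left (exp_mono hL'0.le (by rw [hL']; linarith) ht) hC0
    have r4 : C * Real.exp (-((La α b - e / 2) ^ 2 / (4 * t)))
        ≤ C * Real.exp (-(L' ^ 2 / (4 * t))) :=
      mul_le_mul_of_nonneg_left (exp_mono hL'0.le (by rw [hL']; linarith) ht) hC0
    have r2 : C / √t * Real.exp (-(La α b ^ 2 / (4 * t)))
        ≤ C * (4 / (La α b ^ 2 - L' ^ 2)) * Real.exp (-(L' ^ 2 / (4 * t))) := by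
      have h5 := absorb (L := La α b) (L' := L') (t := t) hL'0.le (by rw [hL']; linarith) ht
      have h6 : C / √t ≤ C / t := by
        apply div_le_div_of_nonneg_left hC0 ht
        calc t = √t * √t := hst3.symm
          _ ≤ √t * 1 := mul_le_mul_of_nonneg_left hst1 hst.le
          _ = √t := mul_one _
      calc C / √t * Real.exp (-(La α b ^ 2 / (4 * t)))
          ≤ C / t * Real.exp (-(La α b ^ 2 / (4 * t))) :=
            mul_le_mul_of_nonneg_right h6 (Real.exp_pos _).le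
        _ = C * (1 / t * Real.exp (-(La α b ^ 2 / (4 * t)))) := by ring
        _ ≤ C * (4 / (La α b ^ 2 - L' ^ 2) * Real.exp (-(L' ^ 2 / (4 * t)))) :=
            mul_le_mul_of_nonneg_left h5 hC0
        _ = _ := by ring
    have r3 : C / t * Real.exp (-((Lz α b - 2 * (e / 4)) ^ 2 / (4 * t)))
        ≤ C * (4 / ((Lz α b - 2 * (e / 4)) ^ 2 - L' ^ 2)) * Real.exp (-(L' ^ 2 / (4 * t))) := by
      have h5 := absorb (L := Lz α b - 2 * (e / 4)) (L' := L') (t := t) hL'0.le hz ht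
      calc C / t * Real.exp (-((Lz α b - 2 * (e / 4)) ^ 2 / (4 * t)))
          = C * (1 / t * Real.exp (-((Lz α b - 2 * (e / 4)) ^ 2 / (4 * t)))) := by ring
        _ ≤ C * (4 / ((Lz α b - 2 * (e / 4)) ^ 2 - L' ^ 2) * Real.exp (-(L' ^ 2 / (4 * t)))) :=
            mul_le_mul_of_nonneg_left h5 hC0
        _ = _ := by ring
    rw [v3]
    have hnn : 0 ≤ (LM (uI α) (hI α b) (fun f => Lp f ∧ Lm f) t).toReal := ENNReal.toReal_nonneg
    have habs : |2 * (LM (uI α) (hI α b) Lp t).toReal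
        - (LM (uI α) (hI α b) (fun f => Lp f ∧ Lm f) t).toReal - lo α b * gg t (lo α b)|
        ≤ |2 * (LM (uI α) (hI α b) Lp t).toReal - lo α b * gg t (lo α b)|
          + (LM (uI α) (hI α b) (fun f => Lp f ∧ Lm f) t).toReal := by
      have h7 := abs_sub (2 * (LM (uI α) (hI α b) Lp t).toReal - lo α b * gg t (lo α b))
        (LM (uI α) (hI α b) (fun f => Lp f ∧ Lm f) t).toReal
      rw [abs_of_nonneg hnn] at h7
      have h8 : 2 * (LM (uI α) (hI α b) Lp t).toReal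
        - (LM (uI α) (hI α b) (fun f => Lp f ∧ Lm f) t).toReal - lo α b * gg t (lo α b)
        = 2 * (LM (uI α) (hI α b) Lp t).toReal - lo α b * gg t (lo α b)
          - (LM (uI α) (hI α b) (fun f => Lp f ∧ Lm f) t).toReal := by ring
      rw [h8]
      exact h7
    have hsum : (C + C * (4 / (La α b ^ 2 - L' ^ 2))
        + C * (4 / ((Lz α b - 2 * (e / 4)) ^ 2 - L' ^ 2)) + C) * Real.exp (-(L' ^ 2 / (4 * t)))
        = C * Real.exp (-(L' ^ 2 / (4 * t)))
          + C * (4 / (La α b ^ 2 - L' ^ 2)) * Real.exp (-(L' ^ 2 / (4 * t)))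
          + C * (4 / ((Lz α b - 2 * (e / 4)) ^ 2 - L' ^ 2)) * Real.exp (-(L' ^ 2 / (4 * t)))
          + C * Real.exp (-(L' ^ 2 / (4 * t))) := by ring
    rw [hsum]
    linarith

end Pool.Agent.XQ.H4V
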