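import Pool.Agent.Helper35_XQ.StmtAH

/-!
XQ part A5, module FLN: the flux through the half window (helper4).
-/

set_option autoImplicit false

namespace Pool.Agent.XQ.H4F

open MeasureTheory Filter Topology Real Set Pool.Agent.H60K Pool.Agent.AEU.H12
open Pool.Agent.H62T (G)

lemma arg_conj' {z : ℂ} (hz : 0 < z.re) : ((starRingEnd ℂ) z).arg = -z.arg := by
  rw [Complex.arg_conj, if_neg]
  have h := (Complex.abs_arg_lt_pi_div_two_iff.mpr (Or.inl hz))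
  rw [abs_lt] at h
  intro h2
  have := pi_pos
  linarith

lemma jkr_conj_right (m : ℝ → ℝ) (κ : ℝ) {z x : ℂ} (hx : 0 < x.re) :
    JKr m (fun τ => -m τ) 0 κ z ((starRingEnd ℂ) x) = -JKr m (fun τ => -m τ) 0 κ z x := by
  unfold JKr
  rw [arg_conj' hx, Complex.norm_conj, ← mul_neg, ← integral_neg]
  congr 2
  ext τ
  have e1 : (0 + z.arg + -x.arg) * τ = (z.arg - x.arg) * τ := by ring
  have e2 : (z.arg - -x.arg) * τ = (0 + z.arg + x.arg) * τ := by ring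
  rw [e1, e2]
  ring

lemma jkr_conj_left (m : ℝ → ℝ) (κ : ℝ) {z x : ℂ} (hz : 0 < z.re) :
    JKr m (fun τ => -m τ) 0 κ ((starRingEnd ℂ) z) x = -JKr m (fun τ => -m τ) 0 κ z x := by
  unfold JKr
  rw [arg_conj' hz, Complex.norm_conj, ← mul_neg, ← integral_neg]
  congr 2
  ext τ
  have e1 : (0 + -z.arg + x.arg) * τ = -((z.arg - x.arg) * τ) := by ring
  have e2 : (-z.arg - x.arg) * τ = -((0 + z.arg + x.arg) * τ) := by ring
  rw [e1, e2, cosh_neg, cosh_neg]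
  ring

lemma ker_jkr0 (hKER : AH.KerStatement) {α d κ : ℝ} (h1 : 0 < α) (h2 : α < π)
    (hκ : 0 < κ) {z x : ℂ} (hz : z ≠ 0) (hx : x ≠ 0)
    (hz1 : 0 < z.arg) (hz2 : z.arg < α) (hx1 : 0 < x.arg) (hx2 : x.arg < α) :
    ∫ t in Ioi (0 : ℝ), rexp (-(κ ^ 2 * t)) * kME (us α 0) (hh d) {1} {2} t z x =
      JKr (AH.mm α) (fun τ => -AH.mm α τ) 0 κ z x := by
  have h := hKER α d κ ‖z‖ ‖x‖ z.arg x.arg h1 h2 hκ (norm_pos_iff.mpr hz)
    (norm_pos_iff.mpr hx) hz1 hz2 hx1 hx2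
  rw [Complex.norm_mul_exp_arg_mul_I, Complex.norm_mul_exp_arg_mul_I] at h
  rw [h]
  unfold JKr
  rw [show (2 : ℝ) / π ^ 2 = 1 / π ^ 2 * 2 by ring, mul_assoc, ← integral_const_mul]
  congr 1
  congr 1
  ext τ
  have e1 : cosh ((0 + z.arg + x.arg) * τ) = cosh (τ * z.arg) * cosh (τ * x.arg) +
      sinh (τ * z.arg) * sinh (τ * x.arg) := by
    rw [← cosh_add]
    congr 1
    ring
  have e2 : cosh ((z.arg - x.arg) * τ) = cosh (τ * z.arg) * cosh (τ * x.arg) -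
      sinh (τ * z.arg) * sinh (τ * x.arg) := by
    rw [← cosh_sub]
    congr 1
    ring
  rw [e1, e2]
  have e3 : H38KL.Kit τ (κ * ‖z‖) = Kit τ (κ * ‖z‖) := rfl
  have e4 : H38KL.Kit τ (κ * ‖x‖) = Kit τ (κ * ‖x‖) := rfl
  rw [e3, e4]
  ring

lemma ch_abs (ξ1 : ℝ) (x y : ℂ) : |ch ξ1 y - ch ξ1 x| ≤ 1 := by
  unfold ch
  split_ifs <;> simp

lemma ch_meas (ξ1 : ℝ) : Measurable (ch ξ1) := by
  unfold ch
  refine Measurable.ite ?_ measurable_const measurable_const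
  exact measurableSet_le measurable_const Complex.measurable_re

lemma ch_conj (ξ1 : ℝ) (x : ℂ) : ch ξ1 ((starRingEnd ℂ) x) = ch ξ1 x := by
  unfold ch
  rw [Complex.conj_re]

lemma arg_pos_of {z : ℂ} (hz : 0 < z.im) : 0 < z.arg := by
  rcases lt_or_eq_of_le (Complex.arg_nonneg_iff.2 hz.le) with h | h
  · exact h
  · exfalso
    have := Complex.arg_eq_zero_iff.1 h.symm
    exact hz.ne' this.2

lemma F_meas (ξ1 d : ℝ) (J : ℂ → ℂ → ℝ) (hJ : Measurable fun p : ℂ × ℂ => J p.1 p.2) :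
    Measurable (Function.uncurry fun x y : ℂ => (ch ξ1 y - ch ξ1 x) *
      J (2 * d - (starRingEnd ℂ) y) x) := by
  have m1 : Measurable fun p : ℂ × ℂ => ch ξ1 p.2 - ch ξ1 p.1 :=
    ((ch_meas _).comp measurable_snd).sub ((ch_meas _).comp measurable_fst)
  have m2 : Measurable fun p : ℂ × ℂ => ((2 * (d : ℂ) - (starRingEnd ℂ) p.2, p.1) : ℂ × ℂ) := by
    refine Measurable.prodMk ?_ measurable_fst
    exact measurable_const.sub (Complex.continuous_conj.measurable.comp measurable_snd)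
  have m3 : Measurable fun p : ℂ × ℂ => J (2 * d - (starRingEnd ℂ) p.2) p.1 := hJ.comp m2
  exact m1.mul m3

/-- FLN -/
theorem fln (hCVT : AH.CvtStatement) (hKER : AH.KerStatement) (hJKB : AH.JkbStatement)
    (hSYM : AH.SymStatement) (hPRN : AH.PrnStatement) : AH.FlnStatement := by
  intro α d hα1 hα2 hd
  have hpi := pi_pos
  obtain ⟨ρ0, hρ0, H⟩ := hPRN α d hα1 hα2 hd
  refine ⟨ρ0, hρ0, fun ρ hρ hρρ => ?_⟩
  obtain ⟨θ, t0, t1, t2, e, δ0, he, hδ0, H⟩ := H ρ hρ hρρ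
  refine ⟨e, δ0, he, hδ0, fun δ hδ hδδ => ?_⟩
  obtain ⟨q1, q2, q3, q4⟩ := H δ hδ hδδ
  have hp : |π - α| < α := by
    rw [abs_of_pos (by linarith)]; linarith
  have hp' : α - |π - α| = 2 * α - π := by
    rw [abs_of_pos (by linarith)]; ring
  obtain ⟨C1, hev0⟩ := ev_shb hp
  rw [hp'] at hev0
  have hev : Ev (AH.mm α) C1 (2 * α - π) := hev0
  have hb : |(0 : ℝ)| < 2 * α - π := by
    rw [abs_zero]; linarith
  obtain ⟨c0, hc0, hg⟩ := gen (δ := δ) hev hev.neg hb (by linarith) hδ q1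
    (by linarith : 0 < 2 * d + e) q2.le q2.le t0 t1 t0 t1 t0 t1 t0 t1
    (by linarith) (by linarith) q4 q4 q4 q4
  refine ⟨c0, hc0, fun c hc hcc => ?_⟩
  obtain ⟨C, κ0, hκ0, hg⟩ := hg c hc hcc
  refine ⟨1 / 2 * C, κ0, hκ0, fun κ hκ => ?_⟩
  have hκp : 0 < κ := hκ0.trans_le hκ
  have hg := hg κ hκ
  rw [hCVT α d δ ρ c κ hd hδ q1 hc hκp]
  obtain ⟨hJm, M, hM⟩ := hJKB α κ (d / 2) hα1 hα2 hκp (by positivity)
  set F : ℂ → ℂ → ℝ := fun x y => (ch (d - 2 * δ) y - ch (d - 2 * δ) x) *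
    JKr (AH.mm α) (fun τ => -AH.mm α τ) 0 κ (2 * d - (starRingEnd ℂ) y) x with hF
  have hFm : Measurable (Function.uncurry F) := by
    rw [hF]
    exact F_meas (d - 2 * δ) d (JKr (AH.mm α) (fun τ => -AH.mm α τ) 0 κ) hJm
  have hMM : ∀ x ∈ Rw (d - 2 * δ) δ ρ ρ, ∀ y ∈ Rw (d - 2 * δ) δ ρ ρ,
      |F x y| ≤ M ∧ F ((starRingEnd ℂ) x) y = -F x y ∧ F x ((starRingEnd ℂ) y) = -F x y := by
    intro x hx y hy
    obtain ⟨a1, a2, _, _⟩ := q3 x hx
    obtain ⟨_, _, b1, b2⟩ := q3 y hy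
    have hd2 : 0 < d / 2 := by positivity
    refine ⟨?_, ?_, ?_⟩
    · have k1 := hM _ _ b1 a1 b2 a2
      have k2 := ch_abs (d - 2 * δ) x y
      rw [hF]
      simp only
      rw [abs_mul]
      calc |ch (d - 2 * δ) y - ch (d - 2 * δ) x| *
            |JKr (AH.mm α) (fun τ => -AH.mm α τ) 0 κ (2 * d - (starRingEnd ℂ) y) x|
          ≤ 1 * M := mul_le_mul k2 k1 (abs_nonneg _) zero_le_one
        _ = M := one_mul M
    · rw [hF]
      simp only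
      rw [ch_conj, jkr_conj_right _ _ (hd2.trans_le a1)]
      ring
    · rw [hF]
      simp only
      have e1 : (2 * d - (starRingEnd ℂ) ((starRingEnd ℂ) y) : ℂ)
          = (starRingEnd ℂ) (2 * d - (starRingEnd ℂ) y) := by
        rw [map_sub, map_mul, Complex.conj_ofReal, Complex.conj_ofNat]
      rw [ch_conj, e1, jkr_conj_left _ _ (hd2.trans_le b1)]
      ring
  have hS := hSYM (c / κ) (d - 2 * δ) δ ρ M F (by positivity) hFm hMM
  -- replacement of the kernel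
  have hrep : ∫ x in Rw (d - 2 * δ) δ ρ 0, ∫ y in Rw (d - 2 * δ) δ ρ 0,
        (G (c / κ) (x - y) - G (c / κ) (x - (starRingEnd ℂ) y))
          * (ch (d - 2 * δ) y - ch (d - 2 * δ) x)
          * ∫ t in Set.Ioi (0 : ℝ), Real.exp (-(κ ^ 2 * t)) *
            kME (us α 0) (hh d) {1} {2} t (rf (us α 0) (hh d) 0 y) x
      = ∫ x in Rw (d - 2 * δ) δ ρ 0, ∫ y in Rw (d - 2 * δ) δ ρ 0,
        (G (c / κ) (x - y) - G (c / κ) (x - (starRingEnd ℂ) y)) * F x y := by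
    have hm := (H15.Rw_open (d - 2 * δ) δ ρ 0).measurableSet
    apply setIntegral_congr_fun hm
    intro x hx
    apply setIntegral_congr_fun hm
    intro y hy
    simp only
    have hsub : ∀ w ∈ Rw (d - 2 * δ) δ ρ 0, w ∈ Rw (d - 2 * δ) δ ρ ρ ∧ 0 < w.im := by
      rintro w ⟨w1, w2, w3⟩
      rw [neg_zero] at w2
      exact ⟨⟨w1, by linarith, w3⟩, w2⟩
    obtain ⟨x1, x2⟩ := hsub x hx
    obtain ⟨y1, y2⟩ := hsub y hy
    obtain ⟨a1, a2, _, _⟩ := q3 x x1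
    obtain ⟨_, _, b1, b2⟩ := q3 y y1
    have hd2 : 0 < d / 2 := by positivity
    have hyi : 0 < (2 * d - (starRingEnd ℂ) y : ℂ).im := by
      simpa using y2
    have ha1 := abs_le.1 a2
    have hb1 := abs_le.1 b2
    rw [hF]
    simp only
    rw [mul_assoc]
    congr 1
    congr 1
    simp only [rf_eq]
    apply ker_jkr0 hKER (by linarith) hα2 hκp _ _ (arg_pos_of hyi) (by linarith)
      (arg_pos_of x2) (by linarith)
    · intro h
      rw [h, Complex.zero_re] at b1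
      linarith
    · intro h
      rw [h, Complex.zero_re] at a1
      linarith
  rw [hrep, hS]
  have e1 : FN α 0 d κ = 2 / π * ∫ τ in Ioi (0 : ℝ),
      (AH.mm α τ * cosh (0 * τ) * Kit 0 (2 * κ * d) + -AH.mm α τ * Kit (2 * τ) (2 * κ * d)) := by
    unfold FN
    congr 1
    congr 1
    ext τ
    have e3 : H38KL.Kit 0 (2 * κ * d) = Kit 0 (2 * κ * d) := rfl
    have e4 : H38KL.Kit (2 * τ) (2 * κ * d) = Kit (2 * τ) (2 * κ * d) := rfl
    rw [e3, e4, add_zero, mul_zero]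
    unfold AH.mm
    ring
  have hW : ∫ x in Rw (d - 2 * δ) δ ρ ρ, ∫ y in Rw (d - 2 * δ) δ ρ ρ, G (c / κ) (x - y) * F x y
      = ∫ x in Rw (d - 2 * δ) δ ρ ρ, ∫ y in Rw (d - 2 * δ) δ ρ ρ,
          H62T.G (c / κ) (x - y) * (ch (d - 2 * δ) y - ch (d - 2 * δ) x) *
            JKr (AH.mm α) (fun τ => -AH.mm α τ) 0 κ (2 * d - (starRingEnd ℂ) y) x := by
    congr 1
    ext x
    congr 1
    ext y
    rw [hF]
    simp only
    rw [mul_assoc]
  rw [hW, e1]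
  set I1 := ∫ x in Rw (d - 2 * δ) δ ρ ρ, ∫ y in Rw (d - 2 * δ) δ ρ ρ,
          H62T.G (c / κ) (x - y) * (ch (d - 2 * δ) y - ch (d - 2 * δ) x) *
            JKr (AH.mm α) (fun τ => -AH.mm α τ) 0 κ (2 * d - (starRingEnd ℂ) y) x with hI1
  set I2 := 2 / π * ∫ τ in Ioi (0 : ℝ),
      (AH.mm α τ * cosh (0 * τ) * Kit 0 (2 * κ * d) + -AH.mm α τ * Kit (2 * τ) (2 * κ * d))
      with hI2
  have e5 : κ / c * (rexp (-(κ * c)) * (1 / 2 * I1)) - 1 / 2 * I2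
      = 1 / 2 * (κ / c * rexp (-(κ * c)) * I1 - I2) := by ring
  rw [e5, abs_mul, abs_of_pos (by norm_num : (0 : ℝ) < 1 / 2)]
  have e6 : 1 / 2 * C * rexp (-(κ * (2 * d + e))) = 1 / 2 * (C * rexp (-(κ * (2 * d + e)))) := by
    ring
  rw [e6]
  have h12 : (0 : ℝ) ≤ 1 / 2 := by norm_num
  exact mul_le_mul_of_nonneg_left hg h12

end Pool.Agent.XQ.H4F
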