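import Pool.Agent.Helper15_AEU3.Hpk

/-!
XQ part A5, module QPK: the heat kernel of a quadrant (helper4).
-/

namespace Pool.Agent.XQ.H4Q

open MeasureTheory Complex Filter Topology ProbabilityTheory Pool.Agent.H16Iso Pool.Agent.H62T
  Pool.Agent.H16F Pool.Agent.H60K Pool.Agent.H60K.H15
open scoped ENNReal NNReal

variable {u w : ℂ} {b c : ℝ}

/-- the quadrant -/
def Qd (u w : ℂ) (b c : ℝ) : Set ℂ := Hp u b ∩ Hp w c

theorem Qd_open (u w : ℂ) (b c : ℝ) : IsOpen (Qd u w b c) := (Hp_open u b).inter (Hp_open w c)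

/-- the four term image kernel -/
noncomputable def kq (u w : ℂ) (b c t : ℝ) (x y : ℂ) : ℝ :=
  gi w c t x y - gi w c t x (rl u b y)

theorem ip_rl_perp (huw : ip w u = 0) (z : ℂ) : ip w (rl u b z) = ip w z := by
  have e1 : ip w u = w.re * u.re + w.im * u.im := rfl
  have e2 : ip w (rl u b z) = w.re * (rl u b z).re + w.im * (rl u b z).im := rfl
  have e3 : ip w z = w.re * z.re + w.im * z.im := rfl
  rw [e1] at huw
  rw [e2, e3, rl_re, rl_im]
  linear_combination (-2 * (ip u z - b)) * huw

theorem kq_eq (hu : ‖u‖ = 1) (hw : ‖w‖ = 1) (huw : ip w u = 0) {t : ℝ} (ht : 0 < t) (x y : ℂ) :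
    kq u w b c t x y = G t (x - y) * (1 - Real.exp (-((b - ip u x) * (b - ip u y) / t)))
      * (1 - Real.exp (-((c - ip w x) * (c - ip w y) / t))) := by
  unfold kq
  rw [gi_eq hw ht, gi_eq hw ht, ip_rl_perp huw]
  have h := gi_eq (b := b) hu ht x y
  unfold gi at h
  have h2 : G t (x - rl u b y)
      = G t (x - y) - G t (x - y) * (1 - Real.exp (-((b - ip u x) * (b - ip u y) / t))) := by
    linarith
  rw [h2]
  ring

theorem gi_rl_left (hu : ‖u‖ = 1) (hw : ‖w‖ = 1) (huw : ip w u = 0) {t : ℝ} (ht : 0 < t)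
    (x y : ℂ) : gi w c t (rl u b x) y = gi w c t x (rl u b y) := by
  rw [gi_eq hw ht, gi_eq hw ht, ip_rl_perp huw, ip_rl_perp huw]
  congr 1
  unfold G
  rw [norm_sub_rl hu]

theorem gi_rl_rl (hu : ‖u‖ = 1) (hw : ‖w‖ = 1) (huw : ip w u = 0) {t : ℝ} (ht : 0 < t)
    (x y : ℂ) : gi w c t (rl u b x) (rl u b y) = gi w c t x y := by
  rw [gi_rl_left hu hw huw ht, rl_rl hu]

theorem one_sub_nonneg {a : ℝ} (ha : 0 ≤ a) : 0 ≤ 1 - Real.exp (-a) := by
  have h3 : Real.exp (-a) ≤ 1 := Real.exp_le_one_iff.2 (by linarith)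
  linarith

theorem kq_nonneg (hu : ‖u‖ = 1) (hw : ‖w‖ = 1) (huw : ip w u = 0) {t : ℝ} (ht : 0 < t)
    {x y : ℂ} (hx : x ∈ Qd u w b c) (hy : y ∈ Qd u w b c) : 0 ≤ kq u w b c t x y := by
  rw [kq_eq hu hw huw ht]
  have hx1 : ip u x < b := hx.1
  have hx2 : ip w x < c := hx.2
  have hy1 : ip u y < b := hy.1
  have hy2 : ip w y < c := hy.2
  refine mul_nonneg (mul_nonneg (H41.G_nonneg ht _) (one_sub_nonneg ?_)) (one_sub_nonneg ?_)
  · have h1 : 0 < b - ip u x := by linarith
    have h2 : 0 < b - ip u y := by linarith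
    positivity
  · have h1 : 0 < c - ip w x := by linarith
    have h2 : 0 < c - ip w y := by linarith
    positivity

/-- image kernel of the quadrant, cut off -/
noncomputable def qq (u w : ℂ) (b c t : ℝ) (x y : ℂ) : ℝ :=
  (Qd u w b c).indicator (fun _ => (1 : ℝ)) x * (Qd u w b c).indicator (fun _ => (1 : ℝ)) y
    * kq u w b c t x y

theorem qq_nonneg (hu : ‖u‖ = 1) (hw : ‖w‖ = 1) (huw : ip w u = 0) {t : ℝ} (ht : 0 < t)
    (x y : ℂ) : 0 ≤ qq u w b c t x y := by
  unfold qq
  by_cases hx : x ∈ Qd u w b c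
  · by_cases hy : y ∈ Qd u w b c
    · rw [Set.indicator_of_mem hx, Set.indicator_of_mem hy, one_mul, one_mul]
      exact kq_nonneg hu hw huw ht hx hy
    · rw [Set.indicator_of_notMem hy]
      simp
  · rw [Set.indicator_of_notMem hx]
    simp

theorem kq_le (hu : ‖u‖ = 1) (hw : ‖w‖ = 1) (huw : ip w u = 0) {t : ℝ} (ht : 0 < t)
    {x y : ℂ} (hx : x ∈ Qd u w b c) (hy : y ∈ Qd u w b c) :
    kq u w b c t x y ≤ G t (x - y) := by
  rw [kq_eq hu hw huw ht]
  have hx1 : ip u x < b := hx.1
  have hx2 : ip w x < c := hx.2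
  have hy1 : ip u y < b := hy.1
  have hy2 : ip w y < c := hy.2
  have hG := H41.G_nonneg ht (x - y)
  have p1 : 0 ≤ 1 - Real.exp (-((b - ip u x) * (b - ip u y) / t)) := by
    apply one_sub_nonneg
    have h1 : 0 < b - ip u x := by linarith
    have h2 : 0 < b - ip u y := by linarith
    positivity
  have p2 : 1 - Real.exp (-((b - ip u x) * (b - ip u y) / t)) ≤ 1 := by
    have := Real.exp_pos (-((b - ip u x) * (b - ip u y) / t))
    linarith
  have p3 : 1 - Real.exp (-((c - ip w x) * (c - ip w y) / t)) ≤ 1 := by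
    have := Real.exp_pos (-((c - ip w x) * (c - ip w y) / t))
    linarith
  calc G t (x - y) * (1 - Real.exp (-((b - ip u x) * (b - ip u y) / t)))
        * (1 - Real.exp (-((c - ip w x) * (c - ip w y) / t)))
      ≤ G t (x - y) * (1 - Real.exp (-((b - ip u x) * (b - ip u y) / t))) * 1 :=
        mul_le_mul_of_nonneg_left p3 (mul_nonneg hG p1)
    _ ≤ G t (x - y) * 1 * 1 := by
        rw [mul_one, mul_one]
        exact mul_le_mul_of_nonneg_left p2 hG
    _ = G t (x - y) := by ring

theorem kq_prod_int (hu : ‖u‖ = 1) (hw : ‖w‖ = 1) (huw : ip w u = 0) {s : ℝ} (hs : 0 < s)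
    (x y : ℂ) : Integrable fun z => kq u w b c s x z * kq u w b c s z y := by
  have a1 := gi_prod_int (b := c) hw hs x y
  have a2 := gi_prod_int (b := c) hw hs x (rl u b y)
  have a3 := gi_prod_int (b := c) hw hs (rl u b x) y
  have a4 := gi_prod_int (b := c) hw hs (rl u b x) (rl u b y)
  have h := ((a1.sub a2).sub a3).add a4
  refine h.congr (Eventually.of_forall fun z => ?_)
  simp only [Pi.add_apply, Pi.sub_apply]
  unfold kq
  rw [gi_rl_left hu hw huw hs x z]
  ring

theorem kq_inv (hu : ‖u‖ = 1) (hw : ‖w‖ = 1) (huw : ip w u = 0) {s : ℝ} (hs : 0 < s)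
    (x y z : ℂ) : kq u w b c s x (rl u b z) * kq u w b c s (rl u b z) y
      = kq u w b c s x z * kq u w b c s z y := by
  unfold kq
  rw [rl_rl hu, gi_rl_left hu hw huw hs z y, gi_rl_rl hu hw huw hs z y]
  ring

theorem kq_full (hu : ‖u‖ = 1) (hw : ‖w‖ = 1) (huw : ip w u = 0) {t : ℝ} (ht : 0 < t)
    (x y : ℂ) : ∫ z in Hp w c, kq u w b c (t / 2) x z * kq u w b c (t / 2) z y
      = 2 * kq u w b c t x y := by
  have hs : 0 < t / 2 := by positivity
  have a1 := (gi_prod_int (b := c) hw hs x y).integrableOn (s := Hp w c)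
  have a2 := (gi_prod_int (b := c) hw hs x (rl u b y)).integrableOn (s := Hp w c)
  have a3 := (gi_prod_int (b := c) hw hs (rl u b x) y).integrableOn (s := Hp w c)
  have a4 := (gi_prod_int (b := c) hw hs (rl u b x) (rl u b y)).integrableOn (s := Hp w c)
  have e : (fun z => kq u w b c (t / 2) x z * kq u w b c (t / 2) z y) = fun z =>
      gi w c (t / 2) x z * gi w c (t / 2) z y - gi w c (t / 2) x z * gi w c (t / 2) z (rl u b y)
      - gi w c (t / 2) (rl u b x) z * gi w c (t / 2) z y
      + gi w c (t / 2) (rl u b x) z * gi w c (t / 2) z (rl u b y) := by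
    funext z
    unfold kq
    rw [gi_rl_left hu hw huw hs x z]
    ring
  have b1 := a1.sub a2
  have b2 := b1.sub a3
  simp only [Pi.sub_def] at b1 b2
  rw [e, integral_add b2 a4, integral_sub b1 a3, integral_sub a1 a2,
    gi_half hw ht, gi_half hw ht, gi_half hw ht, gi_half hw ht,
    gi_rl_left hu hw huw ht x y, gi_rl_rl hu hw huw ht x y]
  unfold kq
  ring

theorem kq_half (hu : ‖u‖ = 1) (hw : ‖w‖ = 1) (huw : ip w u = 0) {t : ℝ} (ht : 0 < t)
    (x y : ℂ) : ∫ z in Qd u w b c, kq u w b c (t / 2) x z * kq u w b c (t / 2) z y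
      = kq u w b c t x y := by
  have hs : 0 < t / 2 := by positivity
  have hmw : MeasurableSet (Hp w c) := (Hp_open w c).measurableSet
  have hm : MeasurableSet (Hp u b) := (Hp_open u b).measurableSet
  have hmq : MeasurableSet (Qd u w b c) := (Qd_open u w b c).measurableSet
  set f : ℂ → ℝ := (Hp w c).indicator
    (fun z => kq u w b c (t / 2) x z * kq u w b c (t / 2) z y) with hf
  have hi : Integrable f := (kq_prod_int hu hw huw hs x y).indicator hmw
  have hfull : ∫ z, f z = 2 * kq u w b c t x y := by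
    rw [hf, integral_indicator hmw, kq_full hu hw huw ht]
  have hinv : ∀ z, f (rl u b z) = f z := by
    intro z
    rw [hf]
    by_cases hz : z ∈ Hp w c
    · have hz' : rl u b z ∈ Hp w c := by
        show ip w (rl u b z) < c
        rw [ip_rl_perp huw]
        exact hz
      rw [Set.indicator_of_mem hz, Set.indicator_of_mem hz']
      exact kq_inv hu hw huw hs x y z
    · have hz' : rl u b z ∉ Hp w c := by
        show ¬ ip w (rl u b z) < c
        rw [ip_rl_perp huw]
        exact hz
      rw [Set.indicator_of_notMem hz, Set.indicator_of_notMem hz']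
  have hadd := integral_add_compl hm hi
  have h2 : ∫ z in (Hp u b)ᶜ, f z = ∫ z in Hp u b, f z := by
    rw [← (rl_mp (b := b) hu).setIntegral_preimage_emb (rl_emb hu) f (Hp u b)ᶜ]
    rw [← integral_indicator hm, ← integral_indicator
      (rl_cont.measurable hm.compl)]
    congr 1
    funext z
    by_cases hz : ip u z < b
    · rw [Set.indicator_of_mem (show z ∈ Hp u b from hz), Set.indicator_of_mem, hinv]
      show ¬ ip u (rl u b z) < b
      rw [ip_rl hu]
      linarith
    · rw [Set.indicator_of_notMem (show z ∉ Hp u b from hz)]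
      by_cases hz2 : ip u z = b
      · have e0 : f z = 0 := by
          rw [hf]
          by_cases hzw : z ∈ Hp w c
          · rw [Set.indicator_of_mem hzw]
            have : kq u w b c (t / 2) x z = 0 := by
              unfold kq
              rw [rl_fix hz2, sub_self]
            show kq u w b c (t / 2) x z * kq u w b c (t / 2) z y = 0
            rw [this, zero_mul]
          · rw [Set.indicator_of_notMem hzw]
        by_cases hmem : z ∈ rl u b ⁻¹' (Hp u b)ᶜ
        · rw [Set.indicator_of_mem hmem, hinv, e0]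
        · rw [Set.indicator_of_notMem hmem]
      · rw [Set.indicator_of_notMem]
        intro hmem
        have h3 : ¬ ip u (rl u b z) < b := hmem
        rw [ip_rl hu] at h3
        have h4 : b < ip u z := lt_of_le_of_ne (not_lt.1 hz) (Ne.symm hz2)
        exact h3 (by linarith)
  have h5 : ∫ z in Hp u b, f z
      = ∫ z in Qd u w b c, kq u w b c (t / 2) x z * kq u w b c (t / 2) z y := by
    rw [hf, setIntegral_indicator hmw]
    rfl
  linarith

theorem qq_ck (hu : ‖u‖ = 1) (hw : ‖w‖ = 1) (huw : ip w u = 0) {t : ℝ} (ht : 0 < t) (x y : ℂ) :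
    ∫ z, qq u w b c (t / 2) x z * qq u w b c (t / 2) z y = qq u w b c t x y := by
  have hm : MeasurableSet (Qd u w b c) := (Qd_open u w b c).measurableSet
  have e : (fun z => qq u w b c (t / 2) x z * qq u w b c (t / 2) z y) = fun z =>
      ((Qd u w b c).indicator (fun _ => (1 : ℝ)) x * (Qd u w b c).indicator (fun _ => (1 : ℝ)) y) *
      (Qd u w b c).indicator (fun z => kq u w b c (t / 2) x z * kq u w b c (t / 2) z y) z := by
    funext z
    unfold qq
    by_cases hz : z ∈ Qd u w b c
    · rw [Set.indicator_of_mem hz, Set.indicator_of_mem hz]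
      ring
    · rw [Set.indicator_of_notMem hz, Set.indicator_of_notMem hz]
      ring
  rw [e, integral_const_mul, integral_indicator hm, kq_half hu hw huw ht]
  rfl

theorem qq_int (hu : ‖u‖ = 1) (hw : ‖w‖ = 1) (huw : ip w u = 0) {s : ℝ} (hs : 0 < s) (x y : ℂ) :
    Integrable fun z => qq u w b c s x z * qq u w b c s z y := by
  have hm : MeasurableSet (Qd u w b c) := (Qd_open u w b c).measurableSet
  have e : (fun z => qq u w b c s x z * qq u w b c s z y) = fun z =>
      ((Qd u w b c).indicator (fun _ => (1 : ℝ)) x * (Qd u w b c).indicator (fun _ => (1 : ℝ)) y) *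
      (Qd u w b c).indicator (fun z => kq u w b c s x z * kq u w b c s z y) z := by
    funext z
    unfold qq
    by_cases hz : z ∈ Qd u w b c
    · rw [Set.indicator_of_mem hz, Set.indicator_of_mem hz]
      ring
    · rw [Set.indicator_of_notMem hz, Set.indicator_of_notMem hz]
      ring
  rw [e]
  exact ((kq_prod_int hu hw huw hs x y).indicator hm).const_mul _

theorem lowerq (hu : ‖u‖ = 1) (hw : ‖w‖ = 1) (huw : ip w u = 0) (m : ℕ) :
    ∀ t : ℝ, 0 < t → ∀ x y : ℂ, qq u w b c t x y ≤ Ker (Qd u w b c) m t x y := by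
  induction m with
  | zero =>
    intro t ht x y
    simp only [Ker]
    unfold qq
    by_cases hx : x ∈ Qd u w b c
    · by_cases hy : y ∈ Qd u w b c
      · rw [Set.indicator_of_mem hx, Set.indicator_of_mem hy, one_mul, one_mul, one_mul]
        exact kq_le hu hw huw ht hx hy
      · rw [Set.indicator_of_notMem hy]
        simp
    · rw [Set.indicator_of_notMem hx]
      simp
  | succ m ih =>
    intro t ht x y
    have hs : 0 < t / 2 := by positivity
    rw [← qq_ck hu hw huw ht x y]
    simp only [Ker]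
    refine integral_mono (qq_int hu hw huw hs x y)
      (H41.ker_integrable _ (Qd_open u w b c) m _ hs x y) fun z => ?_
    exact mul_le_mul (ih _ hs _ _) (ih _ hs _ _) (qq_nonneg hu hw huw hs _ _)
      (((H41.basic _ (Qd_open u w b c) m _ hs).2.1 x z).1)

/-- the loss factor -/
noncomputable def cf (ε t : ℝ) (m : ℕ) : ℝ :=
  (1 - Real.exp (-(ε ^ 2 * 2 ^ m / t))) ^ (2 * 2 ^ m)

theorem cf_nonneg {ε t : ℝ} (ht : 0 < t) (m : ℕ) : 0 ≤ cf ε t m := by
  unfold cf
  apply pow_nonneg
  apply one_sub_nonneg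
  positivity

theorem cf_succ (ε t : ℝ) (m : ℕ) : cf ε t (m + 1) = cf ε (t / 2) m * cf ε (t / 2) m := by
  unfold cf
  have ec : ε ^ 2 * 2 ^ (m + 1) / t = ε ^ 2 * 2 ^ m / (t / 2) := by
    rcases eq_or_ne t 0 with h | h
    · simp [h]
    · field_simp
      ring
  rw [ec, ← pow_add]
  congr 1
  ring

theorem upperq (hu : ‖u‖ = 1) (hw : ‖w‖ = 1) (huw : ip w u = 0) {ε : ℝ} (hε : 0 < ε) (m : ℕ) :
    ∀ t : ℝ, 0 < t → ∀ x y : ℂ,
      cf ε t m * Ker (Qd u w b c) m t x y ≤ qq u w (b + ε) (c + ε) t x y := by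
  induction m with
  | zero =>
    intro t ht x y
    simp only [Ker]
    have hc := cf_nonneg (ε := ε) ht 0
    by_cases hx : x ∈ Qd u w b c
    · by_cases hy : y ∈ Qd u w b c
      · rw [Set.indicator_of_mem hx, Set.indicator_of_mem hy, one_mul, one_mul]
        have hx1 : ip u x < b := hx.1
        have hx2 : ip w x < c := hx.2
        have hy1 : ip u y < b := hy.1
        have hy2 : ip w y < c := hy.2
        have hx' : x ∈ Qd u w (b + ε) (c + ε) :=
          ⟨show ip u x < b + ε by linarith, show ip w x < c + ε by linarith⟩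
        have hy' : y ∈ Qd u w (b + ε) (c + ε) :=
          ⟨show ip u y < b + ε by linarith, show ip w y < c + ε by linarith⟩
        unfold qq
        rw [Set.indicator_of_mem hx', Set.indicator_of_mem hy', one_mul, one_mul,
          kq_eq hu hw huw ht]
        have hG := H41.G_nonneg ht (x - y)
        have key : ∀ {β p q : ℝ}, p < β → q < β →
            1 - Real.exp (-(ε ^ 2 / t)) ≤ 1 - Real.exp (-((β + ε - p) * (β + ε - q) / t)) := by
          intro β p q hp hq
          have hle : ε ^ 2 / t ≤ (β + ε - p) * (β + ε - q) / t := by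
            refine div_le_div_of_nonneg_right ?_ ht.le
            have h3 : ε ≤ β + ε - p := by linarith
            have h4 : ε ≤ β + ε - q := by linarith
            nlinarith [mul_le_mul h3 h4 hε.le (by linarith)]
          have hexp : Real.exp (-((β + ε - p) * (β + ε - q) / t)) ≤ Real.exp (-(ε ^ 2 / t)) :=
            Real.exp_le_exp.2 (by linarith)
          linarith
        have k1 := key hx1 hy1
        have k2 := key hx2 hy2
        have k0 : 0 ≤ 1 - Real.exp (-(ε ^ 2 / t)) := one_sub_nonneg (by positivity)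
        have e0 : cf ε t 0 = (1 - Real.exp (-(ε ^ 2 / t))) * (1 - Real.exp (-(ε ^ 2 / t))) := by
          unfold cf
          simp only [pow_zero, mul_one, pow_two]
        rw [e0, mul_comm, mul_assoc]
        exact mul_le_mul_of_nonneg_left (mul_le_mul k1 k2 k0 (k0.trans k1)) hG
      · rw [Set.indicator_of_notMem hy]
        simpa using qq_nonneg hu hw huw ht x y
    · rw [Set.indicator_of_notMem hx]
      simpa using qq_nonneg hu hw huw ht x y
  | succ m ih =>
    intro t ht x y
    have hs : 0 < t / 2 := by positivity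
    rw [← qq_ck hu hw huw ht x y]
    simp only [Ker]
    have hc : 0 ≤ cf ε (t / 2) m := cf_nonneg hs m
    rw [cf_succ, ← integral_const_mul]
    refine integral_mono ((H41.ker_integrable _ (Qd_open u w b c) m _ hs x y).const_mul _)
      (qq_int hu hw huw hs x y) fun z => ?_
    have k1 := ((H41.basic _ (Qd_open u w b c) m _ hs).2.1 x z).1
    have k2 := ((H41.basic _ (Qd_open u w b c) m _ hs).2.1 z y).1
    have e : cf ε (t / 2) m * cf ε (t / 2) m *
        (Ker (Qd u w b c) m (t / 2) x z * Ker (Qd u w b c) m (t / 2) z y)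
        = (cf ε (t / 2) m * Ker (Qd u w b c) m (t / 2) x z)
          * (cf ε (t / 2) m * Ker (Qd u w b c) m (t / 2) z y) := by ring
    show cf ε (t / 2) m * cf ε (t / 2) m *
        (Ker (Qd u w b c) m (t / 2) x z * Ker (Qd u w b c) m (t / 2) z y) ≤ _
    rw [e]
    exact mul_le_mul (ih _ hs _ _) (ih _ hs _ _) (mul_nonneg hc k2) (qq_nonneg hu hw huw hs _ _)

theorem pD_le_qq (hu : ‖u‖ = 1) (hw : ‖w‖ = 1) (huw : ip w u = 0) {ε : ℝ} (hε : 0 < ε) {t : ℝ}
    (ht : 0 < t) (x y : ℂ) : pD (Qd u w b c) t x y ≤ qq u w (b + ε) (c + ε) t x y := by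
  have hp := H8.pD_tendsto (Qd_open u w b c) ht x y
  have hz : Tendsto (fun m : ℕ => 2 * (2 : ℝ) ^ m * Real.exp (-(ε ^ 2 * 2 ^ m / t))) atTop
      (𝓝 0) := by
    have h1 : Tendsto (fun m : ℕ => (2 : ℝ) ^ m) atTop atTop :=
      tendsto_pow_atTop_atTop_of_one_lt (by norm_num)
    have h2 := Real.tendsto_pow_mul_exp_neg_atTop_nhds_zero 1
    have hk : 0 < ε ^ 2 / t := by positivity
    have h3 : Tendsto (fun v : ℝ => v * Real.exp (-(ε ^ 2 / t * v))) atTop (𝓝 0) := by
      have h4 : Tendsto (fun v : ℝ => ε ^ 2 / t * v) atTop atTop :=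
        tendsto_id.const_mul_atTop hk
      have h5 := (h2.comp h4).const_mul ((ε ^ 2 / t)⁻¹)
      rw [mul_zero] at h5
      refine h5.congr fun v => ?_
      simp only [Function.comp, pow_one]
      field_simp
    have h6 := (h3.comp h1).const_mul 2
    rw [mul_zero] at h6
    refine h6.congr fun m => ?_
    simp only [Function.comp]
    have e : ε ^ 2 / t * 2 ^ m = ε ^ 2 * 2 ^ m / t := by ring
    rw [e]
    ring
  have hlim : Tendsto (fun m : ℕ => (1 - 2 * (2 : ℝ) ^ m * Real.exp (-(ε ^ 2 * 2 ^ m / t)))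
      * Ker (Qd u w b c) m t x y) atTop (𝓝 ((1 - 0) * pD (Qd u w b c) t x y)) :=
    (tendsto_const_nhds.sub hz).mul hp
  rw [sub_zero, one_mul] at hlim
  refine le_of_tendsto hlim (Eventually.of_forall fun m => ?_)
  refine le_trans ?_ (upperq hu hw huw hε m t ht x y)
  refine mul_le_mul_of_nonneg_right ?_ ((H41.basic _ (Qd_open u w b c) m _ ht).2.1 x y).1
  have hb := one_add_mul_le_pow (a := -Real.exp (-(ε ^ 2 * 2 ^ m / t))) (by
    have : 0 ≤ ε ^ 2 * 2 ^ m / t := by positivity
    have h3 : Real.exp (-(ε ^ 2 * 2 ^ m / t)) ≤ 1 := Real.exp_le_one_iff.2 (by linarith)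
    linarith) (2 * 2 ^ m)
  push_cast at hb
  unfold cf
  have e1 : 1 + 2 * (2 : ℝ) ^ m * -Real.exp (-(ε ^ 2 * 2 ^ m / t))
      = 1 - 2 * 2 ^ m * Real.exp (-(ε ^ 2 * 2 ^ m / t)) := by ring
  have e2 : 1 + -Real.exp (-(ε ^ 2 * 2 ^ m / t)) = 1 - Real.exp (-(ε ^ 2 * 2 ^ m / t)) := by ring
  rw [e1, e2] at hb
  exact hb

theorem pD_quad (hu : ‖u‖ = 1) (hw : ‖w‖ = 1) (huw : ip w u = 0) {t : ℝ} (ht : 0 < t) {x y : ℂ}
    (hx : x ∈ Qd u w b c) (hy : y ∈ Qd u w b c) :
    pD (Qd u w b c) t x y = kq u w b c t x y := by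
  have hq : qq u w b c t x y = kq u w b c t x y := by
    unfold qq
    rw [Set.indicator_of_mem hx, Set.indicator_of_mem hy, one_mul, one_mul]
  apply le_antisymm
  · have hlim : Tendsto (fun ε : ℝ => G t (x - y)
        * (1 - Real.exp (-((b + ε - ip u x) * (b + ε - ip u y) / t)))
        * (1 - Real.exp (-((c + ε - ip w x) * (c + ε - ip w y) / t)))) (𝓝[>] 0)
        (𝓝 (kq u w b c t x y)) := by
      rw [kq_eq hu hw huw ht]
      have hc : Continuous fun ε : ℝ => G t (x - y)
          * (1 - Real.exp (-((b + ε - ip u x) * (b + ε - ip u y) / t)))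
          * (1 - Real.exp (-((c + ε - ip w x) * (c + ε - ip w y) / t))) := by fun_prop
      have := hc.tendsto 0
      rw [add_zero, add_zero] at this
      exact this.mono_left nhdsWithin_le_nhds
    refine ge_of_tendsto hlim ?_
    filter_upwards [self_mem_nhdsWithin] with ε hε
    have hε' : 0 < ε := hε
    have h := pD_le_qq (b := b) (c := c) hu hw huw hε' ht x y
    have hx1 : ip u x < b := hx.1
    have hx2 : ip w x < c := hx.2
    have hy1 : ip u y < b := hy.1
    have hy2 : ip w y < c := hy.2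
    have hx' : x ∈ Qd u w (b + ε) (c + ε) :=
      ⟨show ip u x < b + ε by linarith, show ip w x < c + ε by linarith⟩
    have hy' : y ∈ Qd u w (b + ε) (c + ε) :=
      ⟨show ip u y < b + ε by linarith, show ip w y < c + ε by linarith⟩
    unfold qq at h
    rw [Set.indicator_of_mem hx', Set.indicator_of_mem hy', one_mul, one_mul,
      kq_eq hu hw huw ht] at h
    exact h
  · rw [← hq]
    exact le_ciInf fun m => lowerq hu hw huw m t ht x y

theorem pD_zero {D : Set ℂ} (hD : IsOpen D) {t : ℝ} (ht : 0 < t) {x y : ℂ}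
    (h : x ∉ D ∨ y ∉ D) : pD D t x y = 0 := by
  unfold pD
  have : (fun m : ℕ => Ker D m t x y) = fun _ => 0 := by
    funext m
    exact (H41.basic D hD m t ht).2.2.1 x y h
  rw [this, ciInf_const]

/-- The heat kernel of a quadrant in terms of the heat kernel of a half-plane. -/
theorem pD_quadrant (hu : ‖u‖ = 1) (hw : ‖w‖ = 1) (huw : ip w u = 0) {t : ℝ} (ht : 0 < t)
    {x y : ℂ} (hx : ip u x < b) (hy : ip u y < b) :
    pD (Qd u w b c) t x y = pD (Hp w c) t x y - pD (Hp w c) t x (rl u b y) := by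
  by_cases hx2 : ip w x < c
  · by_cases hy2 : ip w y < c
    · rw [pD_quad hu hw huw ht ⟨hx, hx2⟩ ⟨hy, hy2⟩]
      have h1 : pD (Hp w c) t x y = gi w c t x y := pD_half hw ht hx2 hy2
      have h2 : pD (Hp w c) t x (rl u b y) = gi w c t x (rl u b y) :=
        pD_half hw ht hx2 (by rw [ip_rl_perp huw]; exact hy2)
      rw [h1, h2]
      rfl
    · rw [pD_zero (Qd_open u w b c) ht (Or.inr fun h => hy2 h.2),
        pD_zero (Hp_open w c) ht (Or.inr hy2),
        pD_zero (Hp_open w c) ht (Or.inr (by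
          show ¬ ip w (rl u b y) < c
          rw [ip_rl_perp huw]
          exact hy2)), sub_self]
  · rw [pD_zero (Qd_open u w b c) ht (Or.inl fun h => hx2 h.2),
      pD_zero (Hp_open w c) ht (Or.inl hx2), pD_zero (Hp_open w c) ht (Or.inl hx2), sub_self]

end Pool.Agent.XQ.H4Q
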