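import Pool.Agent.Helper35_XQ.StmtAH
import Pool.Agent.Helper4_XQ.QpkA

/-!
XQ part A5, module QPK (helper4).
-/

set_option autoImplicit false

namespace Pool.Agent.XQ.H4Q

open Pool.Agent.H60K Pool.Agent.H60K.H15 Pool.Agent.H62T Pool.Agent.H16F

/-- QPK -/
theorem qpk : AH.QpkStatement := by
  intro u h hn hperp t x y ht hx hy
  have hperp' : ip (u 2) (u 0) = 0 := by
    have e1 : ip (u 0) (u 2) = (u 0).re * (u 2).re + (u 0).im * (u 2).im := rfl
    have e2 : ip (u 2) (u 0) = (u 2).re * (u 0).re + (u 2).im * (u 0).im := rfl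
    rw [e1] at hperp
    rw [e2]
    linarith
  have e1 : Dm u h {0, 2} = Qd (u 0) (u 2) (h 0) (h 2) := by
    ext z
    constructor
    · intro hz
      exact ⟨hz 0 (by simp), hz 2 (by simp)⟩
    · rintro ⟨h1, h2⟩ s hs
      rw [Finset.mem_insert, Finset.mem_singleton] at hs
      rcases hs with rfl | rfl
      · exact h1
      · exact h2
  have e2 : Dm u h {2} = Hp (u 2) (h 2) := by
    ext z
    constructor
    · intro hz
      exact hz 2 (by simp)
    · intro h1 s hs
      rw [Finset.mem_singleton] at hs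
      subst hs
      exact h1
  unfold pB
  rw [e1, e2]
  exact pD_quadrant (hn 0) (hn 2) hperp' ht hx hy

end Pool.Agent.XQ.H4Q
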