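import Pool.Agent.Helper35_XQ.Stmt
import Pool.Agent.Helper38_KL.HKa

/-!
Squad XQ (MP_5b0138_an), module GI_FLX: the flux (helper4).
-/

set_option autoImplicit false

namespace Pool.Agent.XQ.H4

open MeasureTheory Complex Filter Topology Pool.Agent.H62T Pool.Agent.H60K Pool.Agent.XQ.GI
open scoped ENNReal NNReal

lemma G_nn {s : ℝ} (hs : 0 < s) (z : ℂ) : 0 ≤ G s z := (Pool.Agent.H38KL.G_pos hs z).le

lemma lconv {a s : ℝ} (ha : 0 < a) (hs : 0 < s) (x y : ℂ) :
    ∫⁻ z, ENNReal.ofReal (G a (x - z) * G s (z - y)) = ENNReal.ofReal (G (a + s) (x - y)) := by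
  have h := Pool.Agent.H38KL.G_conv_gen ha hs x y
  rw [← ofReal_integral_eq_lintegral_ofReal h.1
    (Eventually.of_forall fun z => mul_nonneg (G_nn ha _) (G_nn hs _)), h.2]

/-- one error term -/
noncomputable def rA (a s : ℝ) (S : Set ℂ) (φ : ℂ → ℂ) (p : ℂ × ℂ) : ℝ :=
  S.indicator (fun _ => (1 : ℝ)) p.1 * (G a (p.1 - p.2) * G s (p.2 - φ p.1))

lemma rA_nn {a s : ℝ} (ha : 0 < a) (hs : 0 < s) (S : Set ℂ) (φ : ℂ → ℂ) (p : ℂ × ℂ) :
    0 ≤ rA a s S φ p := by
  unfold rA
  refine mul_nonneg (Set.indicator_nonneg (fun _ _ => zero_le_one) _)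
    (mul_nonneg (G_nn ha _) (G_nn hs _))

lemma rA_eq (a s : ℝ) (S : Set ℂ) (φ : ℂ → ℂ) (p : ℂ × ℂ) (h : p.1 ∈ S) :
    rA a s S φ p = G a (p.1 - p.2) * G s (p.2 - φ p.1) := by
  unfold rA
  rw [Set.indicator_of_mem h, one_mul]

lemma rA_meas (a s : ℝ) {S : Set ℂ} (hS : MeasurableSet S) {φ : ℂ → ℂ} (hφ : Measurable φ) :
    Measurable (rA a s S φ) := by
  unfold rA
  refine Measurable.mul ((measurable_const.indicator hS).comp measurable_fst) ?_
  exact ((Pool.Agent.H62T.H41.G_cont a).measurable.comp (measurable_fst.sub measurable_snd)).mul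
    ((Pool.Agent.H62T.H41.G_cont s).measurable.comp (measurable_snd.sub (hφ.comp measurable_fst)))

lemma lint_rA {a s : ℝ} (ha : 0 < a) (hs : 0 < s) {S : Set ℂ} (hS : MeasurableSet S)
    {φ : ℂ → ℂ} (hφ : Measurable φ) :
    ∫⁻ p : ℂ × ℂ, ENNReal.ofReal (rA a s S φ p)
      = ∫⁻ x in S, ENNReal.ofReal (G (a + s) (x - φ x)) := by
  rw [Measure.volume_eq_prod, lintegral_prod _ (rA_meas a s hS hφ).ennreal_ofReal.aemeasurable,
    ← lintegral_indicator hS]
  refine lintegral_congr fun x => ?_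
  by_cases hx : x ∈ S
  · rw [Set.indicator_of_mem hx, ← lconv ha hs]
    refine lintegral_congr fun z => ?_
    rw [rA_eq a s S φ (x, z) hx]
  · rw [Set.indicator_of_notMem hx]
    have : ∀ z, ENNReal.ofReal (rA a s S φ (x, z)) = 0 := by
      intro z
      unfold rA
      rw [Set.indicator_of_notMem hx, zero_mul, ENNReal.ofReal_zero]
    simp only [this, lintegral_zero]

lemma c0_meas : Measurable c0 := by
  unfold c0
  exact Measurable.ite (measurableSet_lt measurable_re measurable_const) measurable_const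
    measurable_const

lemma norm_uI (α : ℝ) (s : Fin 3) : ‖uI α s‖ = 1 := by
  have h : ‖uI α s‖ ^ 2 = 1 := by
    rw [← Complex.normSq_eq_norm_sq, Complex.normSq_apply]
    unfold uI
    have := Real.sin_sq_add_cos_sq α
    split_ifs <;> simp only [] <;> linarith only [this]
  have h0 := norm_nonneg (uI α s)
  nlinarith

lemma ip_cont (u : ℂ) : Continuous fun y => ip u y := by
  unfold ip
  fun_prop

lemma rf_cont (u : Fin 3 → ℂ) (h : Fin 3 → ℝ) (s : Fin 3) : Continuous (rf u h s) := by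
  unfold rf
  have := ip_cont (u s)
  fun_prop

lemma g1_meas (α b : ℝ) : Measurable (g1 α b) := by
  unfold g1
  exact (continuous_const.sub (rf_cont _ _ 2)).measurable

lemma g2_meas (α b : ℝ) : Measurable (g2 α b) := by
  unfold g2
  exact ((rf_cont _ _ 0).comp (continuous_const.sub continuous_id)).measurable

lemma g0_meas (α b : ℝ) : Measurable (g0 α b) := by
  have : g0 α b = fun x : ℂ => ((x.re - lo α b : ℝ) : ℂ) +
      ((2 * (b * Real.sin α * Real.cos α) - x.im : ℝ) : ℂ) * I := by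
    funext x
    unfold g0
    apply Complex.ext
    · simp only [add_re, ofReal_re, mul_re, I_re, ofReal_im, I_im]
      ring
    · simp only [add_im, ofReal_re, mul_im, I_re, ofReal_im, I_im]
      ring
  rw [this]
  have : Continuous fun x : ℂ => ((x.re - lo α b : ℝ) : ℂ) +
      ((2 * (b * Real.sin α * Real.cos α) - x.im : ℝ) : ℂ) * I := by fun_prop
  exact this.measurable

open Classical in
/-- the term of the large displacements -/
noncomputable def rD (α b a s : ℝ) (k : ℕ) (d0 : ℝ) (p : ℂ × ℂ) : ℝ :=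
  if d0 ≤ ‖p.2 - p.1‖ ∧ c0 p.1 ≠ c0 p.2 then
    G a (p.1 - p.2) * (UO (uI α) (hI α b) a k w012 p.2 p.1 + G s (p.2 - g0 α b p.1)) else 0

lemma c0_val (x : ℂ) : c0 x = 0 ∨ c0 x = 1 := by
  unfold c0; split_ifs <;> simp

/-- strip -/
def S1 (d0 : ℝ) : Set ℂ := {x : ℂ | |x.re| < d0}
def S2 (d0 : ℝ) : Set ℂ := {x : ℂ | |x.re| < d0 ∧ x.im ≤ 0}
def S3 (α b e d0 : ℝ) : Set ℂ := {x : ℂ | |x.re| < d0 ∧
        Lz α b - e ≤ ‖x - rf (uI α) (hI α b) 0 (rf (uI α) (hI α b) 2 x)‖}
def S4 (α b e d0 : ℝ) : Set ℂ := {x : ℂ | |x.re| < d0 ∧ b / 2 * Real.tan α - e ≤ x.im ∧ 0 ≤ x.im}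

lemma S1_meas (d0 : ℝ) : MeasurableSet (S1 d0) :=
  measurableSet_lt (by fun_prop) measurable_const

lemma S2_meas (d0 : ℝ) : MeasurableSet (S2 d0) :=
  (S1_meas d0).inter (measurableSet_le measurable_im measurable_const)

lemma S3_meas (α b e d0 : ℝ) : MeasurableSet (S3 α b e d0) := by
  have h : Measurable fun x : ℂ => ‖x - rf (uI α) (hI α b) 0 (rf (uI α) (hI α b) 2 x)‖ :=
    (continuous_norm.comp (continuous_id.sub
      ((rf_cont _ _ 0).comp (rf_cont _ _ 2)))).measurable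
  exact (S1_meas d0).inter (measurableSet_le measurable_const h)

lemma S4_meas (α b e d0 : ℝ) : MeasurableSet (S4 α b e d0) :=
  (S1_meas d0).inter ((measurableSet_le measurable_const measurable_im).inter
    (measurableSet_le measurable_const measurable_im))

/-- the pointwise bound -/
lemma point {α b e a s d0 c2 : ℝ} {k : ℕ} (ha : 0 < a) (hs : (k + 1) * a = s) (hs0 : 0 < s)
    (hUn : ∀ z x, 0 ≤ UO (uI α) (hI α b) a k w012 z x) (_hc2 : 0 < c2)
    (hK : ∀ z x : ℂ, |x.re| < d0 → ‖z - x‖ < d0 →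
    (0 ≤ x.im → x.im < b / 2 * Real.tan α - e →
      |UO (uI α) (hI α b) a k w012 z x - G ((k + 1) * a) (z - g0 α b x)|
        ≤ G ((k + 1) * a) (z - g1 α b x) + G ((k + 1) * a) (z - g2 α b x)) ∧
    (-c2 < x.im → x.im ≤ 0 →
      UO (uI α) (hI α b) a k w012 z x ≤ G ((k + 1) * a) (z - g0 α b x)) ∧
    (x.im ≤ -c2 →
      UO (uI α) (hI α b) a k w012 z x
        ≤ G ((k + 1) * a) (z - rf (uI α) (hI α b) 0 (rf (uI α) (hI α b) 2 x)) ∧
      Lz α b - e ≤ ‖x - rf (uI α) (hI α b) 0 (rf (uI α) (hI α b) 2 x)‖) ∧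
    (b / 2 * Real.tan α - e ≤ x.im → 0 ≤ x.im →
      UO (uI α) (hI α b) a k w012 z x ≤ G ((k + 1) * a) (z - rf (uI α) (hI α b) 1 x)))
    (p : ℂ × ℂ) :
    |(c0 p.2 - c0 p.1) * G a (p.1 - p.2) * UO (uI α) (hI α b) a k w012 p.2 p.1
      - (c0 p.2 - c0 p.1) * G a (p.1 - p.2) * G s (p.2 - g0 α b p.1)|
      ≤ rD α b a s k d0 p + (rA a s (S1 d0) (g1 α b) p + (rA a s (S1 d0) (g2 α b) p
        + (rA a s (S2 d0) (g0 α b) p
        + (rA a s (S3 α b e d0) (fun x => rf (uI α) (hI α b) 0 (rf (uI α) (hI α b) 2 x)) p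
        + (rA a s (S4 α b e d0) (g0 α b) p
          + rA a s (S4 α b e d0) (rf (uI α) (hI α b) 1) p))))) := by
  subst hs
  set s := (k + 1) * a with hs
  obtain ⟨x, z⟩ := p
  simp only
  have n1 := rA_nn ha hs0 (S1 d0) (g1 α b) (x, z)
  have n2 := rA_nn ha hs0 (S1 d0) (g2 α b) (x, z)
  have n3 := rA_nn ha hs0 (S2 d0) (g0 α b) (x, z)
  have n4 := rA_nn ha hs0 (S3 α b e d0)
    (fun x => rf (uI α) (hI α b) 0 (rf (uI α) (hI α b) 2 x)) (x, z)
  have n5 := rA_nn ha hs0 (S4 α b e d0) (g0 α b) (x, z)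
  have n6 := rA_nn ha hs0 (S4 α b e d0) (rf (uI α) (hI α b) 1) (x, z)
  have hGa := G_nn ha (x - z)
  have hU := hUn z x
  have hG0 := G_nn hs0 (z - g0 α b x)
  have nD : 0 ≤ rD α b a s k d0 (x, z) := by
    unfold rD
    split_ifs
    · exact mul_nonneg hGa (add_nonneg hU hG0)
    · exact le_rfl
  have hfac : (c0 z - c0 x) * G a (x - z) * UO (uI α) (hI α b) a k w012 z x
      - (c0 z - c0 x) * G a (x - z) * G s (z - g0 α b x)
      = (c0 z - c0 x) * (G a (x - z) * (UO (uI α) (hI α b) a k w012 z x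
        - G s (z - g0 α b x))) := by ring
  rw [hfac, abs_mul, abs_mul, abs_of_nonneg hGa]
  by_cases hc : c0 x = c0 z
  · rw [hc, sub_self, abs_zero, zero_mul]
    linarith
  have hc1 : |c0 z - c0 x| ≤ 1 := by
    rcases c0_val x with h1 | h1 <;> rcases c0_val z with h2 | h2 <;> rw [h1, h2] <;> norm_num
  set U := UO (uI α) (hI α b) a k w012 z x with hUdef
  have habs : |U - G s (z - g0 α b x)| ≤ U + G s (z - g0 α b x) := by
    rw [abs_le]; constructor <;> linarith
  have hstep : |c0 z - c0 x| * (G a (x - z) * |U - G s (z - g0 α b x)|)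
      ≤ G a (x - z) * |U - G s (z - g0 α b x)| := by
    have := mul_nonneg hGa (abs_nonneg (U - G s (z - g0 α b x)))
    nlinarith only [hc1, this]
  refine hstep.trans ?_
  by_cases hd : d0 ≤ ‖z - x‖
  · have hD : rD α b a s k d0 (x, z) = G a (x - z) * (U + G s (z - g0 α b x)) := by
      unfold rD
      rw [if_pos ⟨hd, hc⟩]
    have := mul_le_mul_of_nonneg_left habs hGa
    rw [hD]
    linarith
  push Not at hd
  have hre : |x.re| < d0 := by
    have h1 : |z.re - x.re| ≤ ‖z - x‖ := by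
      have := abs_re_le_norm (z - x)
      rwa [sub_re] at this
    have h2 := abs_le.1 h1
    unfold c0 at hc
    rw [abs_lt]
    by_cases hx : x.re < 0
    · rw [if_pos hx] at hc
      by_cases hz : z.re < 0
      · rw [if_pos hz] at hc; exact absurd rfl hc
      · push Not at hz
        constructor <;> linarith
    · rw [if_neg hx] at hc
      push Not at hx
      by_cases hz : z.re < 0
      · constructor <;> linarith
      · rw [if_neg hz] at hc; exact absurd rfl hc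
  obtain ⟨k1, k2, k3, k4⟩ := hK z x hre hd
  have m1 : x ∈ S1 d0 := hre
  rcases lt_or_ge 0 x.im with hi | hi
  · rcases lt_or_ge x.im (b / 2 * Real.tan α - e) with hj | hj
    · have h := mul_le_mul_of_nonneg_left (k1 hi.le hj) hGa
      rw [mul_add] at h
      rw [rA_eq a s (S1 d0) (g1 α b) (x, z) m1, rA_eq a s (S1 d0) (g2 α b) (x, z) m1]
      simp only at h ⊢
      linarith only [n3, n4, n5, n6, nD, h]
    · have h := mul_le_mul_of_nonneg_left (habs.trans (add_le_add_left (k4 hj hi.le) _)) hGa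
      have m4 : x ∈ S4 α b e d0 := ⟨hre, hj, hi.le⟩
      rw [mul_add] at h
      rw [rA_eq a s (S4 α b e d0) (g0 α b) (x, z) m4,
        rA_eq a s (S4 α b e d0) (rf (uI α) (hI α b) 1) (x, z) m4]
      simp only at h ⊢
      linarith
  · have m2 : x ∈ S2 d0 := ⟨hre, hi⟩
    rcases lt_or_ge (-c2) x.im with hj | hj
    · have h0 : |U - G s (z - g0 α b x)| ≤ G s (z - g0 α b x) := by
        have := k2 hj hi
        rw [abs_le]; constructor <;> linarith
      have h := mul_le_mul_of_nonneg_left h0 hGa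
      rw [rA_eq a s (S2 d0) (g0 α b) (x, z) m2]
      simp only at h ⊢
      linarith
    · have m3 : x ∈ S3 α b e d0 := ⟨hre, (k3 hj).2⟩
      have h := mul_le_mul_of_nonneg_left (habs.trans (add_le_add_left (k3 hj).1 _)) hGa
      rw [mul_add] at h
      rw [rA_eq a s (S2 d0) (g0 α b) (x, z) m2, rA_eq a s (S3 α b e d0)
        (fun x => rf (uI α) (hI α b) 0 (rf (uI α) (hI α b) 2 x)) (x, z) m3]
      simp only at h ⊢
      linarith

/-- sum of the error terms -/
noncomputable def EE (α b e CE CD t : ℝ) : ℝ :=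
  CD * Real.exp (-(Lz α b ^ 2 / (4 * t))) + (CE / √t * Real.exp (-(La α b ^ 2 / (4 * t)))
    + (CE * Real.exp (-(La α b ^ 2 / (4 * t)))
    + (CE / t * Real.exp (-((Lz α b - 2 * e) ^ 2 / (4 * t)))
      + CE / t * Real.exp (-((Lz α b - 2 * e) ^ 2 / (4 * t))))))

lemma EE_nn {α b e CE CD t : ℝ} (hCE : 0 ≤ CE) (hCD : 0 ≤ CD) (ht : 0 < t) :
    0 ≤ EE α b e CE CD t := by
  unfold EE
  positivity

lemma EE_le {α b e CE CD t : ℝ} (hCE : 0 ≤ CE) (hCD : 0 ≤ CD) (ht : 0 < t) (ht1 : t < 1)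
    (he : 0 < e) (he2 : 2 * e < Lz α b) :
    EE α b e CE CD t ≤ (3 * CE + CD) / √t * Real.exp (-(La α b ^ 2 / (4 * t)))
        + (3 * CE + CD) / t * Real.exp (-((Lz α b - 2 * e) ^ 2 / (4 * t))) := by
  unfold EE
  have hst : 0 < √t := Real.sqrt_pos.2 ht
  have hst1 : √t ≤ 1 := by rw [Real.sqrt_le_one]; exact ht1.le
  set X := Real.exp (-(La α b ^ 2 / (4 * t))) with hX
  set Y := Real.exp (-((Lz α b - 2 * e) ^ 2 / (4 * t))) with hY
  have hX0 : 0 < X := Real.exp_pos _
  have hY0 : 0 < Y := Real.exp_pos _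
  have hZ : Real.exp (-(Lz α b ^ 2 / (4 * t))) ≤ Y := by
    rw [hY]
    apply Real.exp_le_exp.2
    apply neg_le_neg
    apply div_le_div_of_nonneg_right _ (by positivity)
    nlinarith only [he, he2]
  have i1 : 1 ≤ 1 / √t := by rw [le_div_iff₀ hst]; linarith
  have i2 : 1 ≤ 1 / t := by rw [le_div_iff₀ ht]; linarith
  have e1 : CD * Real.exp (-(Lz α b ^ 2 / (4 * t))) ≤ CD / t * Y := by
    calc CD * Real.exp (-(Lz α b ^ 2 / (4 * t))) ≤ CD * Y := mul_le_mul_of_nonneg_left hZ hCD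
      _ = CD * 1 * Y := by ring
      _ ≤ CD * (1 / t) * Y := by gcongr
      _ = CD / t * Y := by ring
  have e2 : CE * X ≤ CE / √t * X := by
    calc CE * X = CE * 1 * X := by ring
      _ ≤ CE * (1 / √t) * X := by gcongr
      _ = CE / √t * X := by ring
  have e3 : 0 ≤ CE / √t * X := by positivity
  have e4 : 0 ≤ CD / √t * X := by positivity
  have e5 : 0 ≤ CE / t * Y := by positivity
  have e6 : (3 * CE + CD) / √t * X = 3 * (CE / √t * X) + CD / √t * X := by ring
  have e7 : (3 * CE + CD) / t * Y = 3 * (CE / t * Y) + CD / t * Y := by ring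
  rw [e6, e7]
  linarith only [e1, e2, e3, e4, e5]

lemma ladd7 {f0 f1 f2 f3 f4 f5 f6 : ℂ × ℂ → ℝ≥0∞} (h1 : Measurable f1) (h2 : Measurable f2)
    (h3 : Measurable f3) (h4 : Measurable f4) (h5 : Measurable f5) (h6 : Measurable f6) :
    ∫⁻ p, (f0 p + (f1 p + (f2 p + (f3 p + (f4 p + (f5 p + f6 p))))))
      = (∫⁻ p, f0 p) + ((∫⁻ p, f1 p) + ((∫⁻ p, f2 p) + ((∫⁻ p, f3 p) + ((∫⁻ p, f4 p)
        + ((∫⁻ p, f5 p) + (∫⁻ p, f6 p)))))) := by
  have e1 : ∫⁻ p, (f5 p + f6 p) = (∫⁻ p, f5 p) + ∫⁻ p, f6 p := lintegral_add_right f5 h6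
  have e2 : ∫⁻ p, (f4 p + (f5 p + f6 p)) = (∫⁻ p, f4 p) + ∫⁻ p, (f5 p + f6 p) :=
    lintegral_add_right f4 (h5.add h6)
  have e3 : ∫⁻ p, (f3 p + (f4 p + (f5 p + f6 p)))
      = (∫⁻ p, f3 p) + ∫⁻ p, (f4 p + (f5 p + f6 p)) :=
    lintegral_add_right f3 (h4.add (h5.add h6))
  have e4 : ∫⁻ p, (f2 p + (f3 p + (f4 p + (f5 p + f6 p))))
      = (∫⁻ p, f2 p) + ∫⁻ p, (f3 p + (f4 p + (f5 p + f6 p))) :=
    lintegral_add_right f2 (h3.add (h4.add (h5.add h6)))
  have e5 : ∫⁻ p, (f1 p + (f2 p + (f3 p + (f4 p + (f5 p + f6 p)))))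
      = (∫⁻ p, f1 p) + ∫⁻ p, (f2 p + (f3 p + (f4 p + (f5 p + f6 p)))) :=
    lintegral_add_right f1 (h2.add (h3.add (h4.add (h5.add h6))))
  have e6 : ∫⁻ p, (f0 p + (f1 p + (f2 p + (f3 p + (f4 p + (f5 p + f6 p))))))
      = (∫⁻ p, f0 p) + ∫⁻ p, (f1 p + (f2 p + (f3 p + (f4 p + (f5 p + f6 p))))) :=
    lintegral_add_right f0 (h1.add (h2.add (h3.add (h4.add (h5.add h6)))))
  rw [e6, e5, e4, e3, e2, e1]

theorem flx (hF : FmaStatement) (hKb : KbdStatement) (hE : ErfStatement) (hDs : DspStatement)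
    (_hL : LenStatement) (hU : UpoStatement) : FlxStatement := by
  intro α b e h1 h2 hb he he2
  obtain ⟨d0, c2, hd0, hc2, hK⟩ := hKb α b e h1 h2 hb he
  have hα : 0 < α := lt_of_lt_of_le (by positivity) h1
  obtain ⟨CE, hCE, hE'⟩ := hE α b e d0 h1 h2 hb he hd0 he2
  have hLz : 0 < Lz α b := by linarith
  obtain ⟨n0, hn0, hD⟩ := hDs α b d0 (Lz α b) hα h2 hb hd0 hLz
  refine ⟨n0, fun n hn => ?_⟩
  obtain ⟨CD, hCD, hD'⟩ := hD n hn
  refine ⟨n * (3 * CE + CD), by positivity, fun t ht ht1 => ?_⟩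
  have hn2 : 2 ≤ n := hn0.trans hn
  have hn2R : (2 : ℝ) ≤ n := by exact_mod_cast hn2
  have hnR : (0 : ℝ) < n := by linarith
  have ha0 : 0 < t / n := div_pos ht hnR
  have hs : (((n - 2 : ℕ) : ℝ) + 1) * (t / n) = t - t / n := by
    rw [Nat.cast_sub hn2]
    field_simp
    push_cast
    ring
  have hs0 : 0 < t - t / n := by
    rw [← hs]; positivity
  obtain ⟨hFi, hFv⟩ := hF α b (t / n) (t - t / n) hα h2 hb ha0 hs0
  have hU' := hU (uI α) (hI α b) (norm_uI α) (t / n) ha0 (n - 2) w012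
  obtain ⟨q1, q2, q3, q4⟩ := hE' t ht ht1
  have qD := hD' t ht ht1
  have hat : t / n + (t - t / n) = t := by ring
  set a := t / n with hadef
  set s := t - a with hsdef
  set F : ℂ × ℂ → ℝ := fun p => (c0 p.2 - c0 p.1) * G a (p.1 - p.2)
    * UO (uI α) (hI α b) a (n - 2) w012 p.2 p.1 with hFdef
  set M : ℂ × ℂ → ℝ := fun p => (c0 p.2 - c0 p.1) * G a (p.1 - p.2)
    * G s (p.2 - g0 α b p.1) with hMdef
  have hpt := fun p : ℂ × ℂ => point (α := α) (b := b) (e := e) (a := a) (s := s) (d0 := d0)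
    (c2 := c2) (k := n - 2) ha0 hs hs0 (fun z x => (hU'.2 z x).1) hc2
    (fun z x hx hz => hK a (n - 2) z x ha0 hx hz) p
  have m1 := (rA_meas a s (S1_meas d0) (g1_meas α b)).ennreal_ofReal
  have m2 := (rA_meas a s (S1_meas d0) (g2_meas α b)).ennreal_ofReal
  have m3 := (rA_meas a s (S2_meas d0) (g0_meas α b)).ennreal_ofReal
  have hrr : Measurable fun x => rf (uI α) (hI α b) 0 (rf (uI α) (hI α b) 2 x) :=
    ((rf_cont _ _ 0).comp (rf_cont _ _ 2)).measurable
  have hr1 : Measurable (rf (uI α) (hI α b) 1) := (rf_cont _ _ 1).measurable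
  have m4 := (rA_meas a s (S3_meas α b e d0) hrr).ennreal_ofReal
  have m5 := (rA_meas a s (S4_meas α b e d0) (g0_meas α b)).ennreal_ofReal
  have m6 := (rA_meas a s (S4_meas α b e d0) hr1).ennreal_ofReal
  have gm : ∀ φ : ℂ → ℂ, Measurable φ → Measurable fun x => ENNReal.ofReal (G t (x - φ x)) :=
    fun φ hφ => ((Pool.Agent.H62T.H41.G_cont t).measurable.comp
      (measurable_id.sub hφ)).ennreal_ofReal
  have add2 : ∀ (S : Set ℂ) (φ ψ : ℂ → ℂ), Measurable φ → Measurable ψ →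
      (∫⁻ x in S, ENNReal.ofReal (G t (x - φ x))) + (∫⁻ x in S, ENNReal.ofReal (G t (x - ψ x)))
      = ∫⁻ x in S, ENNReal.ofReal (G t (x - φ x) + G t (x - ψ x)) := by
    intro S φ ψ hφ hψ
    rw [← lintegral_add_left (gm φ hφ)]
    refine lintegral_congr fun x => ?_
    rw [ENNReal.ofReal_add (G_nn ht _) (G_nn ht _)]
  have key : ∫⁻ p, ‖F p - M p‖ₑ ≤ ENNReal.ofReal (EE α b e CE CD t) := by
    calc ∫⁻ p, ‖F p - M p‖ₑ
        ≤ ∫⁻ p, (ENNReal.ofReal (rD α b a s (n - 2) d0 p)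
          + (ENNReal.ofReal (rA a s (S1 d0) (g1 α b) p)
          + (ENNReal.ofReal (rA a s (S1 d0) (g2 α b) p)
          + (ENNReal.ofReal (rA a s (S2 d0) (g0 α b) p)
          + (ENNReal.ofReal (rA a s (S3 α b e d0)
              (fun x => rf (uI α) (hI α b) 0 (rf (uI α) (hI α b) 2 x)) p)
          + (ENNReal.ofReal (rA a s (S4 α b e d0) (g0 α b) p)
            + ENNReal.ofReal (rA a s (S4 α b e d0) (rf (uI α) (hI α b) 1) p))))))) := by
          refine lintegral_mono fun p => ?_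
          rw [Real.enorm_eq_ofReal_abs]
          refine (ENNReal.ofReal_le_ofReal (hpt p)).trans ?_
          refine ENNReal.ofReal_add_le.trans (add_le_add le_rfl ?_)
          refine ENNReal.ofReal_add_le.trans (add_le_add le_rfl ?_)
          refine ENNReal.ofReal_add_le.trans (add_le_add le_rfl ?_)
          refine ENNReal.ofReal_add_le.trans (add_le_add le_rfl ?_)
          refine ENNReal.ofReal_add_le.trans (add_le_add le_rfl ?_)
          exact ENNReal.ofReal_add_le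
      _ = (∫⁻ p, ENNReal.ofReal (rD α b a s (n - 2) d0 p))
          + ((∫⁻ x in S1 d0, ENNReal.ofReal (G t (x - g1 α b x)))
          + ((∫⁻ x in S1 d0, ENNReal.ofReal (G t (x - g2 α b x)))
          + ((∫⁻ x in S2 d0, ENNReal.ofReal (G t (x - g0 α b x)))
          + ((∫⁻ x in S3 α b e d0, ENNReal.ofReal
              (G t (x - rf (uI α) (hI α b) 0 (rf (uI α) (hI α b) 2 x))))
          + ((∫⁻ x in S4 α b e d0, ENNReal.ofReal (G t (x - g0 α b x)))
            + (∫⁻ x in S4 α b e d0, ENNReal.ofReal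
              (G t (x - rf (uI α) (hI α b) 1 x)))))))) := by
          rw [ladd7 m1 m2 m3 m4 m5 m6,
            lint_rA ha0 hs0 (S1_meas d0) (g1_meas α b), lint_rA ha0 hs0 (S1_meas d0) (g2_meas α b),
            lint_rA ha0 hs0 (S2_meas d0) (g0_meas α b), lint_rA ha0 hs0 (S3_meas α b e d0) hrr,
            lint_rA ha0 hs0 (S4_meas α b e d0) (g0_meas α b),
            lint_rA ha0 hs0 (S4_meas α b e d0) hr1, hat]
      _ = (∫⁻ p, ENNReal.ofReal (rD α b a s (n - 2) d0 p))
          + ((∫⁻ x in S1 d0, ENNReal.ofReal (G t (x - g1 α b x) + G t (x - g2 α b x)))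
          + ((∫⁻ x in S2 d0, ENNReal.ofReal (G t (x - g0 α b x)))
          + ((∫⁻ x in S3 α b e d0, ENNReal.ofReal
              (G t (x - rf (uI α) (hI α b) 0 (rf (uI α) (hI α b) 2 x))))
          + (∫⁻ x in S4 α b e d0, ENNReal.ofReal (G t (x - g0 α b x)
              + G t (x - rf (uI α) (hI α b) 1 x)))))) := by
          rw [← add2 (S1 d0) _ _ (g1_meas α b) (g2_meas α b),
            ← add2 (S4 α b e d0) _ _ (g0_meas α b) hr1]
          simp only [add_assoc]
      _ ≤ ENNReal.ofReal (CD * Real.exp (-(Lz α b ^ 2 / (4 * t))))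
          + (ENNReal.ofReal (CE / √t * Real.exp (-(La α b ^ 2 / (4 * t))))
          + (ENNReal.ofReal (CE * Real.exp (-(La α b ^ 2 / (4 * t))))
          + (ENNReal.ofReal (CE / t * Real.exp (-((Lz α b - 2 * e) ^ 2 / (4 * t))))
          + ENNReal.ofReal (CE / t * Real.exp (-((Lz α b - 2 * e) ^ 2 / (4 * t))))))) := by
          refine add_le_add ?_ (add_le_add q1 (add_le_add q2 (add_le_add q4 q3)))
          refine le_trans ?_ qD
          refine le_trans (le_of_eq ?_) (lintegral_indicator_le _ _)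
          refine lintegral_congr fun p => ?_
          unfold rD
          simp only [Set.indicator_apply, Set.mem_ofPred_eq]
          split_ifs
          · rfl
          · exact ENNReal.ofReal_zero
      _ = ENNReal.ofReal (EE α b e CE CD t) := by
          unfold EE
          rw [← ENNReal.ofReal_add (by positivity) (by positivity),
            ← ENNReal.ofReal_add (by positivity) (by positivity),
            ← ENNReal.ofReal_add (by positivity) (by positivity),
            ← ENNReal.ofReal_add (by positivity) (by positivity)]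
  have hc2' : Measurable fun p : ℂ × ℂ => c0 p.2 := c0_meas.comp measurable_snd
  have hc1' : Measurable fun p : ℂ × ℂ => c0 p.1 := c0_meas.comp measurable_fst
  have hGm : Measurable fun p : ℂ × ℂ => G a (p.1 - p.2) :=
    (Pool.Agent.H62T.H41.G_cont a).measurable.comp (measurable_fst.sub measurable_snd)
  have hFm : Measurable F :=
    ((hc2'.sub hc1').mul hGm).mul (hU'.1.comp measurable_swap)
  have hMm : Measurable M :=
    ((hc2'.sub hc1').mul hGm).mul ((Pool.Agent.H62T.H41.G_cont s).measurable.comp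
      (measurable_snd.sub ((g0_meas α b).comp measurable_fst)))
  have hdi : Integrable fun p => F p - M p :=
    ⟨(hFm.sub hMm).aestronglyMeasurable, lt_of_le_of_lt key ENNReal.ofReal_lt_top⟩
  have hFint : ∫ p, F p = (∫ p, M p) + ∫ p, (F p - M p) := by
    rw [← integral_add hFi hdi]
    refine integral_congr_ae (Eventually.of_forall fun p => ?_)
    simp only
    ring
  have hEnn : 0 ≤ EE α b e CE CD t := EE_nn hCE hCD ht
  have hab : |∫ p, (F p - M p)| ≤ EE α b e CE CD t := by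
    have h5 := (enorm_integral_le_lintegral_enorm (fun p => F p - M p)).trans key
    rw [Real.enorm_eq_ofReal_abs] at h5
    exact (ENNReal.ofReal_le_ofReal_iff hEnn).1 h5
  have hTU : TU n (uI α) (hI α b) t = ∫ p, F p := rfl
  have hmain : (n : ℝ) * ∫ p, M p = 1 / 2 * lo α b * gg t (lo α b) := by
    have : ∫ p, M p = 1 / 2 * (a / (a + s)) * lo α b * gg (a + s) (lo α b) := hFv
    rw [this, hat, hadef]
    field_simp
  rw [hTU, hFint, mul_add, hmain, add_sub_cancel_left, abs_mul, abs_of_pos hnR]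
  refine (mul_le_mul_of_nonneg_left (hab.trans (EE_le hCE hCD ht ht1 he he2)) hnR.le).trans
    (le_of_eq ?_)
  ring

end Pool.Agent.XQ.H4
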